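import Mathlib
import Pool.Agent.H851.KT.Main

/-!
# Lie algebras of direct sums of a representation of K3 type and an arbitrary representation
-/

set_option autoImplicit false
set_option linter.unusedSectionVars false

namespace Pool.Agent.H851.ZD

open Module TensorProduct Pool.Agent.Y114.RM Pool.Agent.TH118.SG Polynomial Matrix Topology
open NumberField IsDedekindDomain
open Pool.Agent.H851.K3 Pool.Agent.H851.KT
open Pool.Agent.NH56.HY (GK IsFrobenius tw tw_apply R chi_ne)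
open Pool.Agent.H204R3.GP (FiniteIndexSemisimple)

section

variable {Γ : Type} [Group Γ] {ℓ : ℕ} [Fact ℓ.Prime] {n : Type} [Fintype n] [DecidableEq n]
  {χ : Γ →* ℚ_[ℓ]} {ρ : Γ →* Matrix n n ℚ_[ℓ]} {L : Submodule ℚ_[ℓ] (End ℚ_[ℓ] (n → ℚ_[ℓ]))}
  {b : (n → ℚ_[ℓ]) →ₗ[ℚ_[ℓ]] (n → ℚ_[ℓ]) →ₗ[ℚ_[ℓ]] ℚ_[ℓ]}

/-- **Elements orthogonal to the Lie algebra kill the eigenvectors of ordinary Frobenius elements.** -/
theorem kill_sep' (hs : ∀ x y, b x y = b y x)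
    (hb : ∀ x, (∀ y, b x y = 0) → x = 0) {g : Γ}
    (hop : ∀ (θ : Additive (PadicAlgCl ℓ)ˣ →+ PadicAlgCl ℓ) (Y : End (PadicAlgCl ℓ) _),
      IsOp θ ((rep χ ρ g).baseChange (PadicAlgCl ℓ)) Y → Y ∈ bcS (PadicAlgCl ℓ) L)
    (hL : ∀ X ∈ L, Skew b X) (hLie : IsLie L) (h : IsSemisimpleModule (alg L) (n → ℚ_[ℓ]))
    (hsep : ∀ β, (R χ ρ g).charpoly.IsRoot β → β ≠ 1 → Separated (R χ ρ g) β)
    {Z : End ℚ_[ℓ] (n → ℚ_[ℓ])} (hZ : Z ∈ big b L)
    (hZL : ∀ X ∈ L, LinearMap.trace ℚ_[ℓ] _ (Z * X) = 0) {γ : PadicAlgCl ℓ} (hγ : γ ≠ 1)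
    {x : PadicAlgCl ℓ ⊗[ℚ_[ℓ]] (n → ℚ_[ℓ])}
    (hx : x ∈ Module.End.maxGenEigenspace ((rep χ ρ g).baseChange (PadicAlgCl ℓ)) γ) :
    Z.baseChange (PadicAlgCl ℓ) x = 0 := by
  set T : End (PadicAlgCl ℓ) (PadicAlgCl ℓ ⊗[ℚ_[ℓ]] (n → ℚ_[ℓ])) :=
    (rep χ ρ g).baseChange (PadicAlgCl ℓ) with hT
  have hch : T.charpoly = (R χ ρ g).charpoly := charpoly_rep χ ρ g
  have hne : (R χ ρ g).charpoly ≠ 0 := (Matrix.charpoly_monic _).ne_zero
  have hbot : ∀ δ, ¬ (R χ ρ g).charpoly.IsRoot δ → ∀ y ∈ T.maxGenEigenspace δ, y = 0 := by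
    intro δ hδ y hy
    have h1 := LinearMap.finrank_maxGenEigenspace_eq T δ
    rw [hch, rootMultiplicity_eq_zero hδ] at h1
    rw [Submodule.finrank_eq_zero.1 h1] at hy
    exact (Submodule.mem_bot _).1 hy
  have hline : ∀ δ, (R χ ρ g).charpoly.rootMultiplicity δ = 1 → ∃ v ∈ T.maxGenEigenspace δ, v ≠ 0 ∧
      ∀ y ∈ T.maxGenEigenspace δ, ∃ c : PadicAlgCl ℓ, y = c • v := by
    intro δ hδ
    have h1 := LinearMap.finrank_maxGenEigenspace_eq T δ
    rw [hch, hδ] at h1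
    obtain ⟨v, hv, hv'⟩ := finrank_eq_one_iff'.1 h1
    refine ⟨v.1, v.2, fun h0 => hv (Subtype.ext h0), fun y hy => ?_⟩
    obtain ⟨c, hc⟩ := hv' ⟨y, hy⟩
    exact ⟨c, (congrArg Subtype.val hc).symm⟩
  by_cases hroot : (R χ ρ g).charpoly.IsRoot γ
  swap
  · rw [hbot γ hroot x hx, map_zero]
  have hS := hsep γ hroot hγ
  obtain ⟨A, φ, hA, hAr, hφ1, hφ0⟩ := hS.indep
  have hγ0 : γ ≠ 0 := hA.ne γ (hAr γ hroot)
  have hγi : γ⁻¹ ≠ 1 := by
    intro h'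
    apply hγ
    rw [← inv_inv γ, h', inv_one]
  have hS' := hsep γ⁻¹ hS.inv hγi
  obtain ⟨v, hvm, hv0, hv⟩ := hline γ hS.simple
  obtain ⟨v', hvm', -, hv'⟩ := hline γ⁻¹ hS'.simple
  obtain ⟨θ, hθ⟩ := exists_theta hA
  obtain ⟨Y, hY⟩ := exists_op T (fun z => ext0 θ z)
  have hYL : Y ∈ bcS (PadicAlgCl ℓ) L := hop θ Y hY
  have hYs : Skew (bcB (PadicAlgCl ℓ) b) Y := bcS_skew hL Y hYL
  have t1 : ext0 θ γ = 1 := by
    have := hθ γ (hAr γ hroot) 1 (by rw [hφ1, Rat.cast_one])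
    rwa [Rat.cast_one] at this
  have t2 : ext0 θ γ⁻¹ = -1 := by
    have := hθ γ⁻¹ (hAr _ hS.inv) (-1) (by
      rw [hA.map_inv γ (hAr γ hroot), hφ1]
      norm_num)
    rw [this]
    norm_num
  obtain ⟨a, a1, a2, a3, a4⟩ := op_wdg (B := bcB (PadicAlgCl ℓ) b) (T := T) (Y := Y) (β := γ)
    (β' := γ⁻¹) (v := v) (v' := v') (bcB_symm hs) (bcB_nondeg hb)
    (Module.End.iSup_maxGenEigenspace_eq_top T) hYs hv0 hv hv'
    (by rw [hY γ v hvm, t1, one_smul]) (by rw [hY γ⁻¹ v' hvm', t2, neg_one_smul]) (by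
      intro δ h1 h2 y hy
      by_cases hδ : (R χ ρ g).charpoly.IsRoot δ
      · have := hθ δ (hAr δ hδ) 0 (by rw [hφ0 δ hδ h1 h2, Rat.cast_zero])
        rw [hY δ y hy, this, Rat.cast_zero, zero_smul]
      · rw [hbot δ hδ y hy, map_zero])
  have hk := kill_bc (C := PadicAlgCl ℓ) hs hb hL hLie h a1 a2 a3 (a4 ▸ hYL) hZ hZL
  obtain ⟨c, rfl⟩ := hv x hx
  rw [map_smul, hk, smul_zero]

end

section

variable {K : Type} [Field K] [NumberField K] {ℓ : ℕ} [hℓ : Fact ℓ.Prime] {n : Type}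
    [Fintype n] [DecidableEq n] {q : Matrix n n ℚ_[ℓ]} {S : Finset ℕ} {χ : GK K →* ℚ_[ℓ]}
    {Pol : HeightOneSpectrum (𝓞 K) → ℤ[X]} {ρ : GK K →* Matrix n n ℚ_[ℓ]}

/-- a Lie algebra with the properties of the Lie algebra of the Galois group is as large as possible -/
theorem lie_core (h : IsK3Type q S χ Pol ρ) (hss : Semisimple ρ)
    (L : Submodule ℚ_[ℓ] (End ℚ_[ℓ] (n → ℚ_[ℓ]))) (hLie : IsLie L)
    (hAd : ∀ γ, ∀ X ∈ L, AdE (rep χ ρ γ) (rep χ ρ γ⁻¹) X ∈ L)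
    (hskew : ∀ X ∈ L, Skew (form q) X)
    (hcm : ∀ X ∈ L, ∀ (P : End ℚ_[ℓ] (n → ℚ_[ℓ])) (Δ : Subgroup (GK K)), Δ.FiniteIndex →
      (∀ s ∈ Δ, P * rep χ ρ s = rep χ ρ s * P) → X * P = P * X)
    (hord : ∀ γ, ∃ M, 0 < M ∧ ∀ Y ∈ Pool.Agent.R913.Adj.comm L,
      rep χ ρ γ ^ M * Y = Y * rep χ ρ γ ^ M)
    (hop : ∀ γ (θ : Additive (PadicAlgCl ℓ)ˣ →+ PadicAlgCl ℓ) (Y : End (PadicAlgCl ℓ) _),
      IsOp θ ((rep χ ρ γ).baseChange (PadicAlgCl ℓ)) Y → Y ∈ bcS (PadicAlgCl ℓ) L) :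
    L = big (form q) L ∧
      ∀ Y : End ℚ_[ℓ] (n → ℚ_[ℓ]), (∀ X ∈ L, X * Y = Y * X) → IsTateEnd ρ (LinearMap.toMatrix' Y) := by
  have hfss : FiniteIndexSemisimple (rep χ ρ) := finiteIndexSemisimple hss
  have hs := form_symm h.symm
  have hb := form_nondeg h.symm h.nondeg
  have hcomp : CompactSpace (GK K) := inferInstance
  -- semisimplicity over the Lie algebra
  have hproj : ∀ W : Submodule ℚ_[ℓ] (n → ℚ_[ℓ]), (∀ γ, ∀ x ∈ W, rep χ ρ γ x ∈ W) →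
      ∃ P : End ℚ_[ℓ] (n → ℚ_[ℓ]), (∀ X ∈ L, X * P = P * X) ∧ (∀ x, P x ∈ W) ∧
        ∀ x ∈ W, P x = x := by
    intro W hW
    obtain ⟨P, hP1, hP2, hP3⟩ := Pool.Agent.R913.Adj.hasProj hfss ⊤ inferInstance W
      (fun s _ u hu => hW s u hu)
    refine ⟨P, fun X hX => ?_, hP1, hP2⟩
    exact hcm X hX P ⊤ inferInstance fun s hs => LinearMap.ext fun v => hP3 s hs v
  have hsemi : IsSemisimpleModule (alg L) (n → ℚ_[ℓ]) := alg_semisimple (rep χ ρ) hAd hproj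
  -- the commutant
  have hcomm : ∀ Y : End ℚ_[ℓ] (n → ℚ_[ℓ]), (∀ X ∈ L, X * Y = Y * X) →
      ∃ U : Subgroup (GK K), IsOpen (U : Set (GK K)) ∧ ∀ g ∈ U, rep χ ρ g * Y = Y * rep χ ρ g := by
    have hc := tw_continuous h.continuous.1 h.continuous.2
    obtain ⟨Δ, hΔ, hΔc⟩ := Pool.Agent.Y220.RM.tfr_abs (ℓ := ℓ) (V := n → ℚ_[ℓ]) (rep χ ρ)
      (by
        intro X x
        have h1 : Continuous fun γ : GK K => tw χ ρ γ *ᵥ (X (tw χ ρ γ⁻¹ *ᵥ x)) := by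
          refine hc.matrix_mulVec ?_
          exact (LinearMap.continuous_of_finiteDimensional X).comp
            ((hc.comp continuous_inv).matrix_mulVec continuous_const)
        exact h1)
      (Pool.Agent.R913.Adj.comm L) (Pool.Agent.R913.Adj.comm_conj hAd) hord
    intro Y hY
    let U : Subgroup (GK K) :=
      { carrier := {g | rep χ ρ g * Y = Y * rep χ ρ g}
        one_mem' := by
          change rep χ ρ 1 * Y = Y * rep χ ρ 1
          rw [map_one, one_mul, mul_one]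
        mul_mem' := fun {a b} ha hb => by
          change rep χ ρ (a * b) * Y = Y * rep χ ρ (a * b)
          rw [map_mul, mul_assoc, hb, ← mul_assoc, ha, mul_assoc]
        inv_mem' := fun {a} ha => by
          change rep χ ρ a⁻¹ * Y = Y * rep χ ρ a⁻¹
          have e1 : rep χ ρ a⁻¹ * rep χ ρ a = 1 := by rw [← map_mul, inv_mul_cancel, map_one]
          have e2 : rep χ ρ a * rep χ ρ a⁻¹ = 1 := by rw [← map_mul, mul_inv_cancel, map_one]
          have e3 : rep χ ρ a * Y = Y * rep χ ρ a := ha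
          calc rep χ ρ a⁻¹ * Y = rep χ ρ a⁻¹ * (Y * (rep χ ρ a * rep χ ρ a⁻¹)) := by
                rw [e2, mul_one]
            _ = rep χ ρ a⁻¹ * (Y * rep χ ρ a) * rep χ ρ a⁻¹ := by simp only [mul_assoc]
            _ = rep χ ρ a⁻¹ * (rep χ ρ a * Y) * rep χ ρ a⁻¹ := by rw [e3]
            _ = Y * rep χ ρ a⁻¹ := by rw [← mul_assoc (rep χ ρ a⁻¹), e1, one_mul] }
    have hUc : IsClosed (U : Set (GK K)) := by
      have h1 : (U : Set (GK K)) = {g | tw χ ρ g * LinearMap.toMatrix' Y =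
          LinearMap.toMatrix' Y * tw χ ρ g} := by
        ext g
        change rep χ ρ g * Y = Y * rep χ ρ g ↔ _
        rw [Set.mem_ofPred_eq, ← (Matrix.toLin' (R := ℚ_[ℓ])).injective.eq_iff, Matrix.toLin'_mul,
          Matrix.toLin'_mul, Matrix.toLin'_toMatrix']
        exact Iff.rfl
      rw [h1]
      exact isClosed_eq (hc.matrix_mul continuous_const) (continuous_const.matrix_mul hc)
    have hle : Δ ≤ U := fun g hg => hΔc g hg Y hY
    have hUf : U.FiniteIndex := Subgroup.finiteIndex_of_le hle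
    exact ⟨U, Subgroup.isOpen_of_isClosed_of_finiteIndex U hUc, fun g hg => hg⟩
  refine ⟨?_, ?_⟩
  swap
  · intro Y hY
    obtain ⟨U, hU, hUY⟩ := hcomm Y hY
    refine ⟨U, hU, fun g hg => ?_⟩
    have h1 : tw χ ρ g * LinearMap.toMatrix' Y = LinearMap.toMatrix' Y * tw χ ρ g := by
      rw [← (Matrix.toLin' (R := ℚ_[ℓ])).injective.eq_iff, Matrix.toLin'_mul,
          Matrix.toLin'_mul, Matrix.toLin'_toMatrix']
      exact hUY g hg
    rw [tw_apply, Matrix.smul_mul, Matrix.mul_smul] at h1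
    have h2 := congrArg (fun M => χ g • M) h1
    simp only [smul_smul, mul_inv_cancel₀ (chi_ne χ g), one_smul] at h2
    exact h2.symm
  refine eq_big hb hLie hskew hsemi ?_
  intro P hPP hPL hPker a ha
  obtain ⟨U₀, hU₀, hU₀c⟩ := hcomm P hPL
  -- ordinary Frobenius elements are unipotent on the image of `P`
  obtain ⟨U, hU, hUU₀, hUn⟩ := unip_open h U₀ hU₀ (LinearMap.toMatrix' P) (by
    intro g hg hsep
    have h1 : (rep χ ρ g - 1) ^ (Fintype.card n) * P = 0 := by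
      refine unip_sep (hU₀c g hg) ?_
      intro γ hγ x hx
      refine eq_zero_of_pv _ fun π => ?_
      rw [Pool.Agent.Y114.RM.pv_bc]
      refine hPker _ fun Z hZ hZt => ?_
      rw [← Pool.Agent.Y114.RM.pv_bc, kill_sep' hs hb (hop g) hskew hLie hsemi hsep hZ hZt hγ hx,
        map_zero]
    apply Matrix.toLin'.injective
    rw [Matrix.toLin'_mul, Matrix.toLin'_pow, map_sub, Matrix.toLin'_one, Matrix.toLin'_toMatrix',
      map_zero]
    exact h1)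
  have hfin : Finite (GK K ⧸ U) := Subgroup.quotient_finite_of_isOpen _ hU
  have hUf : U.FiniteIndex := Subgroup.finiteIndex_of_finite_quotient
  have hfix := fixes hfss U hUf P hPP (fun g hg => hU₀c g (hUU₀ hg)) (Fintype.card n) (by
    intro g hg
    have h1 := congrArg Matrix.toLin' (hUn g hg)
    rw [Matrix.toLin'_mul, Matrix.toLin'_pow, map_sub, Matrix.toLin'_one, Matrix.toLin'_toMatrix',
      map_zero] at h1
    exact h1)
  have hfa : ∀ g ∈ U, rep χ ρ g a = a := by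
    intro g hg
    have := LinearMap.congr_fun (hfix g hg) a
    rwa [Module.End.mul_apply, ha] at this
  intro X hX
  refine hcm X hX _ U hUf fun s hs => ?_
  refine LinearMap.ext fun x => ?_
  rw [Module.End.mul_apply, Module.End.mul_apply, LinearMap.smulRight_apply,
    LinearMap.smulRight_apply, map_smul, hfa s hs]
  congr 1
  have h1 := form_rep' h s⁻¹ a x
  rw [inv_inv, hfa _ (U.inv_mem hs)] at h1
  exact h1.symm

end

end Pool.Agent.H851.ZD
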