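import Mathlib
import Pool.Agent.H851.ZD.Core

/-!
# The Lie algebra of a direct sum surjects to the Lie algebra of a summand of K3 type
-/

set_option autoImplicit false
set_option linter.unusedSectionVars false

namespace Pool.Agent.H851.ZD

open Module TensorProduct Pool.Agent.Y114.RM Pool.Agent.TH118.SG Polynomial Matrix Topology
open NumberField IsDedekindDomain
open Pool.Agent.H851.K3 Pool.Agent.H851.KT
open Pool.Agent.NH56.HY (GK IsFrobenius tw tw_apply R chi_ne)
open Pool.Agent.H204R3.GP (FiniteIndexSemisimple)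

section blk

variable {k : Type} [Field k] {V W : Type} [AddCommGroup V] [Module k V] [AddCommGroup W] [Module k W]

/-- the first block -/
def blk : End k (V × W) →ₗ[k] End k V where
  toFun X := LinearMap.fst k V W ∘ₗ X ∘ₗ LinearMap.inl k V W
  map_add' _ _ := by ext; simp
  map_smul' _ _ := by ext; simp

theorem blk_apply (X : End k (V × W)) (x : V) : blk X x = (X (x, 0)).1 := rfl

/-- extension by zero -/
def ext1 (Y : End k V) : End k (V × W) := LinearMap.inl k V W ∘ₗ Y ∘ₗ LinearMap.fst k V W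

theorem ext1_apply (Y : End k V) (z : V × W) : ext1 (W := W) Y z = (Y z.1, 0) := rfl

variable {Γ : Type} [Group Γ] {r : Representation k Γ V} {σ : Representation k Γ W}

theorem prod_apply (g : Γ) (z : V × W) : (r.prod σ) g z = (r g z.1, σ g z.2) := rfl

theorem lt_left {X : End k (V × W)} (hX : X ∈ LT (r.prod σ)) (x : V) :
    X (x, 0) = (blk X x, 0) := by
  have h1 : X (x, 0) ∈ LinearMap.range (LinearMap.inl k V W) := by
    refine hX.1 _ ⟨⊤, inferInstance, ?_⟩ _ ⟨x, rfl⟩
    rintro γ - _ ⟨y, rfl⟩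
    refine ⟨r γ y, ?_⟩
    rw [LinearMap.inl_apply, LinearMap.inl_apply, prod_apply, map_zero]
  obtain ⟨y, hy⟩ := h1
  rw [blk_apply, ← hy]
  rfl

theorem lt_right {X : End k (V × W)} (hX : X ∈ LT (r.prod σ)) (x : W) :
    (X (0, x)).1 = 0 := by
  have h1 : X (0, x) ∈ LinearMap.range (LinearMap.inr k V W) := by
    refine hX.1 _ ⟨⊤, inferInstance, ?_⟩ _ ⟨x, rfl⟩
    rintro γ - _ ⟨y, rfl⟩
    refine ⟨σ γ y, ?_⟩
    rw [LinearMap.inr_apply, LinearMap.inr_apply, prod_apply, map_zero]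
  obtain ⟨y, hy⟩ := h1
  rw [← hy]
  rfl

theorem blk_mul {X Y : End k (V × W)} (hY : Y ∈ LT (r.prod σ)) : blk (X * Y) = blk X * blk Y := by
  refine LinearMap.ext fun x => ?_
  rw [Module.End.mul_apply, blk_apply, blk_apply, Module.End.mul_apply, lt_left hY]

theorem ext1_comm {X : End k (V × W)} (hX : X ∈ LT (r.prod σ)) {Y : End k V}
    (h : blk X * Y = Y * blk X) : X * ext1 Y = ext1 Y * X := by
  refine LinearMap.ext fun z => ?_
  rw [Module.End.mul_apply, Module.End.mul_apply, ext1_apply, ext1_apply, lt_left hX]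
  have h1 : X z = X (z.1, 0) + X (0, z.2) := by rw [← map_add]; congr 1; ext <;> simp
  have h2 : (X z).1 = blk X z.1 := by
    rw [h1, Prod.fst_add, lt_right hX, add_zero, blk_apply]
  rw [h2]
  have h3 := LinearMap.congr_fun h z.1
  rw [Module.End.mul_apply, Module.End.mul_apply] at h3
  rw [h3]

theorem comm_blk {X : End k (V × W)} (hX : X ∈ LT (r.prod σ)) {Y : End k V}
    (h : X * ext1 Y = ext1 Y * X) : blk X * Y = Y * blk X := by
  refine LinearMap.ext fun x => ?_
  have h1 := congrArg Prod.fst (LinearMap.congr_fun h (x, 0))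
  rw [Module.End.mul_apply, Module.End.mul_apply, ext1_apply, ext1_apply, lt_left hX,
    lt_left hX] at h1
  exact h1

theorem blk_conj {X : End k (V × W)} (γ : Γ) :
    blk (AdE ((r.prod σ) γ) ((r.prod σ) γ⁻¹) X) = AdE (r γ) (r γ⁻¹) (blk X) := by
  refine LinearMap.ext fun x => ?_
  have e1 : AdE ((r.prod σ) γ) ((r.prod σ) γ⁻¹) X = (r.prod σ) γ * (X * (r.prod σ) γ⁻¹) := rfl
  have e2 : AdE (r γ) (r γ⁻¹) (blk X) = r γ * (blk X * r γ⁻¹) := rfl
  rw [e1, e2, blk_apply, Module.End.mul_apply, Module.End.mul_apply, Module.End.mul_apply,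
    Module.End.mul_apply, prod_apply, prod_apply, blk_apply, map_zero]

end blk

section

variable {K : Type} [Field K] [NumberField K] {ℓ : ℕ} [hℓ : Fact ℓ.Prime] {n : Type}
    [Fintype n] [DecidableEq n] {q : Matrix n n ℚ_[ℓ]} {S : Finset ℕ} {χ : GK K →* ℚ_[ℓ]}
    {Pol : HeightOneSpectrum (𝓞 K) → ℤ[X]} {ρ : GK K →* Matrix n n ℚ_[ℓ]}
    {W : Type} [AddCommGroup W] [Module ℚ_[ℓ] W] [FiniteDimensional ℚ_[ℓ] W]
    (σ : Representation ℚ_[ℓ] (GK K) W)

/-- skewness -/
theorem skew_blk (h : IsK3Type q S χ Pol ρ) {X : End ℚ_[ℓ] ((n → ℚ_[ℓ]) × W)}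
    (hX : X ∈ LT ((rep χ ρ).prod σ)) : Skew (form q) (blk X) := by
  let V' := (n → ℚ_[ℓ]) × W
  let ω : (V' × Dual ℚ_[ℓ] V') →ₗ[ℚ_[ℓ]] (V' × Dual ℚ_[ℓ] V') →ₗ[ℚ_[ℓ]] ℚ_[ℓ] :=
    (form q).compl₁₂ (LinearMap.fst _ _ _ ∘ₗ LinearMap.fst _ _ _)
      (LinearMap.fst _ _ _ ∘ₗ LinearMap.fst _ _ _)
  let φ : Tensor ℚ_[ℓ] V' 2 := Pool.Agent.H204R3.SP.bil2 ω
  have hφ : ∀ v, φ v = form q (v 0).1.1 (v 1).1.1 := fun v => rfl
  have hT : TateTensor ((rep χ ρ).prod σ) φ := by
    refine ⟨⊤, inferInstance, fun g _ v => ?_⟩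
    rw [hφ, hφ]
    exact form_rep h g _ _
  have h1 := hX.2 2 φ hT
  intro x y
  have h2 := h1 ![((x, 0), 0), ((y, 0), 0)]
  rw [Fin.sum_univ_two, hφ, hφ, Function.update_self, Function.update_self,
    Function.update_of_ne Fin.zero_ne_one.symm, Function.update_of_ne Fin.zero_ne_one] at h2
  change form q (X (x, 0)).1 y + form q x (X (y, 0)).1 = 0 at h2
  rw [blk_apply, blk_apply]
  linear_combination h2

/-- **The lift.** Every element of the Lie algebra of the Tate tensors of `V` is a block of an element of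
the Lie algebra of `V ⊕ W`. -/
theorem lift (h : IsK3Type q S χ Pol ρ) (hss : Semisimple ρ) {X : Matrix n n ℚ_[ℓ]}
    (hX : X ∈ tateLie χ ρ) : ∃ X' ∈ LT ((rep χ ρ).prod σ), blk X' = Matrix.toLin' X := by
  obtain ⟨L', hLT, hLie, hAd, -⟩ := Pool.Agent.Y41.RM.lieL' ℚ_[ℓ] ((n → ℚ_[ℓ]) × W) (GK K)
    ((rep χ ρ).prod σ)
  have hL' : ∀ X ∈ L', X ∈ LT ((rep χ ρ).prod σ) := fun X hX => (hLT X).1 hX
  let L : Submodule ℚ_[ℓ] (End ℚ_[ℓ] (n → ℚ_[ℓ])) := L'.map blk
  have hcm : ∀ X ∈ L, ∀ (P : End ℚ_[ℓ] (n → ℚ_[ℓ])) (Δ : Subgroup (GK K)), Δ.FiniteIndex →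
      (∀ s ∈ Δ, P * rep χ ρ s = rep χ ρ s * P) → X * P = P * X := by
    rintro _ ⟨X, hX, rfl⟩ P Δ hΔ hP
    refine comm_blk (hL' X hX) ?_
    refine Pool.Agent.R913.Adj.tate_comm ((rep χ ρ).prod σ) (hL' X hX).2 (Δ := Δ) hΔ
      fun s hs => LinearMap.ext fun z => ?_
    rw [Module.End.mul_apply, Module.End.mul_apply, ext1_apply, ext1_apply, prod_apply, prod_apply,
      map_zero]
    have h1 := LinearMap.congr_fun (hP s hs) z.1
    rw [Module.End.mul_apply, Module.End.mul_apply] at h1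
    rw [h1]
  have hcom' : ∀ Y ∈ Pool.Agent.R913.Adj.comm L, ext1 (W := W) Y ∈
      Pool.Agent.R913.Adj.comm L' := by
    intro Y hY X hX
    exact ext1_comm (hL' X hX) (hY _ ⟨X, hX, rfl⟩)
  obtain ⟨hbig, hcc⟩ := lie_core h hss L (by
      rintro _ ⟨X, hX, rfl⟩ _ ⟨Y, hY, rfl⟩
      refine ⟨X * Y - Y * X, hLie X hX Y hY, ?_⟩
      rw [map_sub, blk_mul (hL' Y hY), blk_mul (hL' X hX)])
    (by
      rintro γ _ ⟨X, hX, rfl⟩
      exact ⟨_, hAd γ X hX, blk_conj γ⟩)
    (by
      rintro _ ⟨X, hX, rfl⟩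
      exact skew_blk σ h (hL' X hX)) hcm
    (by
      intro γ
      obtain ⟨M, hM, h1⟩ := Pool.Agent.R913.Adj.comm_order hLT γ
      refine ⟨M, hM, fun Y hY => ?_⟩
      have h2 := h1 _ (hcom' Y hY)
      have h3 : ∀ (m : ℕ) (z : (n → ℚ_[ℓ]) × W), (((rep χ ρ).prod σ) γ ^ m) z =
          ((rep χ ρ γ ^ m) z.1, (σ γ ^ m) z.2) := by
        intro m
        induction m with
        | zero => intro z; rfl
        | succ m ih =>
          intro z
          rw [pow_succ, Module.End.mul_apply, ih, pow_succ, pow_succ, Module.End.mul_apply,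
            Module.End.mul_apply, prod_apply]
      refine LinearMap.ext fun x => ?_
      have h4 := congrArg Prod.fst (LinearMap.congr_fun h2 (x, 0))
      rw [Module.End.mul_apply, Module.End.mul_apply, ext1_apply, h3, h3, ext1_apply] at h4
      exact h4)
    (by
      intro γ θ Y hY
      set C := PadicAlgCl ℓ with hC
      obtain ⟨Y', hY'⟩ := exists_op ((((rep χ ρ).prod σ) γ).baseChange C) (fun z => ext0 θ z)
      have hYL : Y' ∈ bcS C L' :=
        Pool.Agent.R913.Adj.op_mem (ρ := (rep χ ρ).prod σ) C hLT γ θ Y' hY'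
      -- the block over the extension field
      let inC : C ⊗[ℚ_[ℓ]] (n → ℚ_[ℓ]) →ₗ[C] C ⊗[ℚ_[ℓ]] ((n → ℚ_[ℓ]) × W) :=
        (LinearMap.inl ℚ_[ℓ] (n → ℚ_[ℓ]) W).baseChange C
      let fsC : C ⊗[ℚ_[ℓ]] ((n → ℚ_[ℓ]) × W) →ₗ[C] C ⊗[ℚ_[ℓ]] (n → ℚ_[ℓ]) :=
        (LinearMap.fst ℚ_[ℓ] (n → ℚ_[ℓ]) W).baseChange C
      have hfi : ∀ x, fsC (inC x) = x := by
        intro x
        have h1 : fsC ∘ₗ inC = LinearMap.id := by
          rw [← LinearMap.baseChange_comp, LinearMap.fst_comp_inl, LinearMap.baseChange_id]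
        exact LinearMap.congr_fun h1 x
      have hint : ∀ x, (((rep χ ρ).prod σ) γ).baseChange C (inC x) =
          inC ((rep χ ρ γ).baseChange C x) := by
        intro x
        have h1 : (((rep χ ρ).prod σ) γ).baseChange C ∘ₗ inC = inC ∘ₗ (rep χ ρ γ).baseChange C := by
          rw [← LinearMap.baseChange_comp, ← LinearMap.baseChange_comp]
          congr 1
          refine LinearMap.ext fun x => ?_
          rw [LinearMap.comp_apply, LinearMap.comp_apply, LinearMap.inl_apply, LinearMap.inl_apply,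
            prod_apply, map_zero]
        exact LinearMap.congr_fun h1 x
      have hblk : fsC ∘ₗ Y' ∘ₗ inC = Y := by
        have htop : (⊤ : Submodule C (C ⊗[ℚ_[ℓ]] (n → ℚ_[ℓ]))) ≤
            LinearMap.eqLocus (fsC ∘ₗ Y' ∘ₗ inC) Y := by
          rw [← Module.End.iSup_maxGenEigenspace_eq_top ((rep χ ρ γ).baseChange C)]
          refine iSup_le fun β => fun x hx => ?_
          rw [LinearMap.mem_eqLocus, LinearMap.comp_apply, LinearMap.comp_apply]
          have h1 : inC x ∈ Module.End.maxGenEigenspace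
              ((((rep χ ρ).prod σ) γ).baseChange C) β := by
            rw [Module.End.mem_maxGenEigenspace] at hx ⊢
            obtain ⟨k, hk⟩ := hx
            refine ⟨k, ?_⟩
            let T1 : End C (C ⊗[ℚ_[ℓ]] ((n → ℚ_[ℓ]) × W)) := (((rep χ ρ).prod σ) γ).baseChange C
            let T2 : End C (C ⊗[ℚ_[ℓ]] (n → ℚ_[ℓ])) := (rep χ ρ γ).baseChange C
            let N1 : End C (C ⊗[ℚ_[ℓ]] ((n → ℚ_[ℓ]) × W)) := T1 - β • (1 : End C _)
            let N2 : End C (C ⊗[ℚ_[ℓ]] (n → ℚ_[ℓ])) := T2 - β • (1 : End C _)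
            have h2 : ∀ (k : ℕ) (y : C ⊗[ℚ_[ℓ]] (n → ℚ_[ℓ])),
                (N1 ^ k : End C _) (inC y) = inC ((N2 ^ k : End C _) y) := by
              intro k
              induction k with
              | zero => intro y; rfl
              | succ k ih =>
                intro y
                rw [pow_succ, Module.End.mul_apply, pow_succ, Module.End.mul_apply, ← ih]
                congr 1
                rw [LinearMap.sub_apply, LinearMap.sub_apply, map_sub, LinearMap.smul_apply,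
                  LinearMap.smul_apply, map_smul, Module.End.one_apply, Module.End.one_apply]
                congr 1
                exact hint y
            change (N1 ^ k : End C _) (inC x) = 0
            have h3 : (N2 ^ k : End C _) x = 0 := hk
            rw [h2, h3, map_zero]
          rw [hY' β _ h1, map_smul, hfi, hY β x hx]
        exact LinearMap.ext fun x => htop trivial
      rw [← hblk]
      clear hblk hY'
      induction hYL using Submodule.span_induction with
      | mem Z hZ =>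
        obtain ⟨X, hX, rfl⟩ := hZ
        refine Submodule.subset_span ⟨blk X, ⟨X, hX, rfl⟩, ?_⟩
        have h1 : fsC ∘ₗ X.baseChange C ∘ₗ inC = (blk X).baseChange C := by
          change _ = (LinearMap.fst ℚ_[ℓ] (n → ℚ_[ℓ]) W ∘ₗ X ∘ₗ
            LinearMap.inl ℚ_[ℓ] (n → ℚ_[ℓ]) W).baseChange C
          rw [LinearMap.baseChange_comp, LinearMap.baseChange_comp]
        exact h1.symm
      | zero => simp
      | add a c _ _ ha hc =>
        rw [LinearMap.add_comp, LinearMap.comp_add]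
        exact Submodule.add_mem _ ha hc
      | smul c a _ ha =>
        rw [LinearMap.smul_comp, LinearMap.comp_smul]
        exact Submodule.smul_mem _ c ha)
  have hXL : Matrix.toLin' X ∈ L := by
    rw [hbig]
    obtain ⟨h1, h2⟩ := (tate_main h hss X).1 hX
    refine ⟨skew_iff.2 h1, fun Y hY => ?_⟩
    have h4 := congrArg Matrix.toLin' (h2 _ (hcc Y hY))
    rw [Matrix.toLin'_mul, Matrix.toLin'_mul, Matrix.toLin'_toMatrix'] at h4
    exact h4
  obtain ⟨X', hX', h1⟩ := hXL
  exact ⟨X', hL' X' hX', h1⟩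

end

end Pool.Agent.H851.ZD
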