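import Mathlib
import Pool.Agent.H851.ZD.Lift
import Pool.Agent.H851.TT.Gal

/-!
# Stable spaces of families of forms
-/

set_option autoImplicit false
set_option linter.unusedSectionVars false

namespace Pool.Agent.H851.ZD

open Module Finset Function Matrix
open NumberField IsDedekindDomain Polynomial
open Pool.Agent.Y114.RM
open Pool.Agent.N429.KS (chg der chg_chg chg_one chg_add chg_smul)
open Pool.Agent.H851.K3 Pool.Agent.H851.KT
open Pool.Agent.NH56.HY (GK tw tw_apply chi_ne)

section pairing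

variable {k : Type} [Field k] {n : Type} [Fintype n] [DecidableEq n] {S : Type} [Fintype S]
  [DecidableEq S]

/-- the value of the form `f` at the vectors `x s` -/
def val (f : (S → n) → k) (x : S → n → k) : k := ∑ J : S → n, f J * ∏ s, x s (J s)

theorem val_chg (A : Matrix n n k) (f : (S → n) → k) (x : S → n → k) :
    val (chg A f) x = val f fun s => A *ᵥ x s := by
  unfold val
  have h1 : ∀ J' : S → n, ∏ s, (A *ᵥ x s) (J' s) = ∑ J : S → n, ∏ s, A (J' s) (J s) * x s (J s) := by
    intro J'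
    simp only [Matrix.mulVec, dotProduct]
    rw [Finset.prod_univ_sum]
    simp
  simp only [h1, Finset.mul_sum, chg, Finset.sum_mul, smul_eq_mul]
  rw [Finset.sum_comm]
  refine Finset.sum_congr rfl fun J _ => Finset.sum_congr rfl fun J' _ => ?_
  rw [Finset.prod_mul_distrib]
  ring

theorem val_single (f : (S → n) → k) (J : S → n) : val f (fun s => Pi.single (J s) 1) = f J := by
  unfold val
  rw [Finset.sum_eq_single J]
  · simp
  · intro J' _ hJ
    obtain ⟨s, hs⟩ := Function.ne_iff.1 hJ
    rw [Finset.prod_eq_zero (mem_univ s), mul_zero]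
    simp [hs]
  · intro h
    exact absurd (mem_univ J) h

theorem val_der (X : Matrix n n k) (f : (S → n) → k) (x : S → n → k) :
    val (der X f) x = ∑ s, val f (update x s (X *ᵥ x s)) := by
  unfold val der
  simp only [Finset.sum_mul]
  rw [Finset.sum_comm]
  refine Finset.sum_congr rfl fun s _ => ?_
  have h1 : ∀ J : S → n, ∏ t, (update x s (X *ᵥ x s)) t (J t) =
      ∑ b, X (J s) b * (x s b * ∏ t ∈ univ.erase s, x t (J t)) := by
    intro J
    rw [← Finset.mul_prod_erase univ _ (mem_univ s), update_self]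
    have h2 : ∏ t ∈ univ.erase s, (update x s (X *ᵥ x s)) t (J t) =
        ∏ t ∈ univ.erase s, x t (J t) :=
      Finset.prod_congr rfl fun t ht => by rw [update_of_ne (Finset.ne_of_mem_erase ht)]
    rw [h2, Matrix.mulVec, dotProduct, Finset.sum_mul]
    exact Finset.sum_congr rfl fun b _ => by ring
  simp only [h1, Finset.mul_sum]
  -- the substitution which exchanges `b` and `J s`
  have h3 : ∀ F : (S → n) → n → k, ∑ J : S → n, ∑ b, F J b = ∑ J : S → n, ∑ b, F (update J s b) (J s) := by
    intro F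
    rw [← Finset.sum_product', ← Finset.sum_product']
    refine Finset.sum_bij' (fun p _ => (update p.1 s p.2, p.1 s))
      (fun p _ => (update p.1 s p.2, p.1 s)) (fun _ _ => mem_univ _) (fun _ _ => mem_univ _) ?_ ?_ ?_
    · intro p _
      simp
    · intro p _
      simp
    · intro p _
      simp
  rw [h3]
  refine Finset.sum_congr rfl fun J _ => Finset.sum_congr rfl fun b _ => ?_
  rw [update_self, update_idem, update_eq_self, ← Finset.mul_prod_erase univ _ (mem_univ s)]
  have h4 : ∏ t ∈ univ.erase s, x t (update J s b t) = ∏ t ∈ univ.erase s, x t (J t) :=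
    Finset.prod_congr rfl fun t ht => by rw [update_of_ne (Finset.ne_of_mem_erase ht)]
  rw [h4, update_self]
  ring

end pairing

section

variable {k : Type} [Field k] {n : Type} [Fintype n] [DecidableEq n] {I : Type} [Fintype I]
  [DecidableEq I] (d : I → ℕ)

/-- families of forms -/
abbrev Fam (k n : Type) {I : Type} (d : I → ℕ) : Type := ∀ i, (Fin (d i) → n) → k

variable {Γ : Type} [Group Γ] (r : Γ →* Matrix n n k)

/-- the representation on the families of forms -/
def famRep : Representation k Γ (Fam k n d) where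
  toFun γ :=
    { toFun := fun θ i => chg (r γ⁻¹) (θ i)
      map_add' := fun a b => funext fun i => chg_add _ _ _
      map_smul' := fun c a => funext fun i => chg_smul _ _ _ }
  map_one' := by
    refine LinearMap.ext fun θ => funext fun i => ?_
    change chg (r 1⁻¹) (θ i) = θ i
    rw [inv_one, map_one, chg_one]
  map_mul' γ δ := by
    refine LinearMap.ext fun θ => funext fun i => ?_
    change chg (r (γ * δ)⁻¹) (θ i) = chg (r γ⁻¹) (chg (r δ⁻¹) (θ i))
    rw [chg_chg, ← map_mul, _root_.mul_inv_rev]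

theorem famRep_apply (γ : Γ) (θ : Fam k n d) (i : I) : famRep d r γ θ i = chg (r γ⁻¹) (θ i) := rfl

variable {d}

/-- the evaluation of the `i`-th form as a tensor on `V ⊕ W` -/
noncomputable def taut (i : I) : Tensor k ((n → k) × Fam k n d) (d i + 1) :=
  LinearMap.uncurryLeft
    { toFun := fun w => ∑ J : Fin (d i) → n, w.1.2 i J •
        (MultilinearMap.mkPiAlgebra k (Fin (d i)) k).compLinearMap
          (fun l => LinearMap.proj (J l) ∘ₗ LinearMap.fst k (n → k) (Fam k n d) ∘ₗ
            LinearMap.fst k _ (Dual k ((n → k) × Fam k n d)))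
      map_add' := fun a b => by
        rw [← Finset.sum_add_distrib]
        refine Finset.sum_congr rfl fun J _ => ?_
        rw [← add_smul]
        rfl
      map_smul' := fun c a => by
        rw [RingHom.id_apply, Finset.smul_sum]
        refine Finset.sum_congr rfl fun J _ => ?_
        rw [smul_smul]
        rfl }

theorem taut_apply (i : I) (w : Fin (d i + 1) → ((n → k) × Fam k n d) × Dual k ((n → k) × Fam k n d)) :
    taut (k := k) (n := n) (d := d) i w = val ((w 0).1.2 i) fun l => (w l.succ).1.1 := by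
  unfold taut val
  rw [LinearMap.uncurryLeft_apply]
  simp only [LinearMap.coe_mk, AddHom.coe_mk, MultilinearMap.sum_apply, MultilinearMap.smul_apply,
    MultilinearMap.compLinearMap_apply, MultilinearMap.mkPiAlgebra_apply, smul_eq_mul]
  rfl

end

section

variable {K : Type} [Field K] [NumberField K] {ℓ : ℕ} [hℓ : Fact ℓ.Prime] {n : Type}
    [Fintype n] [DecidableEq n] {q : Matrix n n ℚ_[ℓ]} {S : Finset ℕ} {χ : GK K →* ℚ_[ℓ]}
    {Pol : HeightOneSpectrum (𝓞 K) → ℤ[X]} {ρ : GK K →* Matrix n n ℚ_[ℓ]}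
    {I : Type} [Fintype I] [DecidableEq I] {d : I → ℕ}

/-- **Stable spaces of families of forms are stable under the Lie algebra of the Tate tensors.** -/
theorem der_mem (h : IsK3Type q S χ Pol ρ) (hss : Semisimple ρ) {X : Matrix n n ℚ_[ℓ]}
    (hX : X ∈ tateLie χ ρ) (Q : Submodule ℚ_[ℓ] (Fam ℚ_[ℓ] n d)) (Δ : Subgroup (GK K))
    (hΔ : Δ.FiniteIndex) (hQ : ∀ s ∈ Δ, ∀ θ ∈ Q, (fun i => chg (tw χ ρ s) (θ i)) ∈ Q)
    {θ : Fam ℚ_[ℓ] n d} (hθ : θ ∈ Q) : (fun i => der X (θ i)) ∈ Q := by
  obtain ⟨X', hX', hb⟩ := lift (famRep d (tw χ ρ)) h hss hX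
  have hbx : ∀ x : n → ℚ_[ℓ], X' (x, 0) = (X *ᵥ x, 0) := by
    intro x
    rw [lt_left hX', hb, Matrix.toLin'_apply]
  -- the second component of `X'`
  have key : ∀ i, (X' (0, θ)).2 i = -der X (θ i) := by
    intro i
    have hT : TateTensor ((rep χ ρ).prod (famRep d (tw χ ρ))) (taut (k := ℚ_[ℓ]) (n := n) (d := d) i) := by
      refine ⟨⊤, inferInstance, fun γ _ w => ?_⟩
      rw [taut_apply, taut_apply]
      change val (chg (tw χ ρ γ⁻¹) ((w 0).1.2 i)) (fun l => tw χ ρ γ *ᵥ (w l.succ).1.1) = _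
      rw [val_chg]
      congr 1
      funext l
      rw [Matrix.mulVec_mulVec, ← map_mul, inv_mul_cancel, map_one, Matrix.one_mulVec]
    have h1 := hX'.2 _ _ hT
    have h2 : ∀ x : Fin (d i) → n → ℚ_[ℓ], val ((X' (0, θ)).2 i) x +
        val (der X (θ i)) x = 0 := by
      intro x
      have h3 := h1 (Fin.cons ((0, θ), 0) fun l => ((x l, 0), 0))
      rw [Fin.sum_univ_succ] at h3
      simp only [taut_apply] at h3
      rw [val_der]
      have e0 : val ((update (Fin.cons ((0, θ), 0) fun l => ((x l, 0), 0) :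
          Fin (d i + 1) → ((n → ℚ_[ℓ]) × Fam ℚ_[ℓ] n d) × Dual ℚ_[ℓ] _) 0
          ((lie X') ((Fin.cons ((0, θ), 0) fun l => ((x l, 0), 0) :
          Fin (d i + 1) → ((n → ℚ_[ℓ]) × Fam ℚ_[ℓ] n d) × Dual ℚ_[ℓ] _) 0)) 0).1.2 i) (fun l =>
          (update (Fin.cons ((0, θ), 0) fun l => ((x l, 0), 0) :
          Fin (d i + 1) → ((n → ℚ_[ℓ]) × Fam ℚ_[ℓ] n d) × Dual ℚ_[ℓ] _) 0
          ((lie X') ((Fin.cons ((0, θ), 0) fun l => ((x l, 0), 0) :
          Fin (d i + 1) → ((n → ℚ_[ℓ]) × Fam ℚ_[ℓ] n d) × Dual ℚ_[ℓ] _) 0)) l.succ).1.1) =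
          val ((X' (0, θ)).2 i) x := by
        rw [update_self]
        congr 1
      rw [e0] at h3
      rw [← h3]
      congr 1
      refine Finset.sum_congr rfl fun s _ => ?_
      rw [update_of_ne (Fin.succ_ne_zero s).symm]
      congr 1
      funext l
      by_cases hl : l = s
      · subst hl
        rw [update_self, update_self]
        change X *ᵥ x l = (X' (x l, 0)).1
        rw [hbx]
      · rw [update_of_ne hl, update_of_ne (fun h => hl (Fin.succ_injective _ h))]
        rfl
    funext J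
    have h3 := h2 fun s => Pi.single (J s) 1
    rw [val_single, val_single] at h3
    rw [Pi.neg_apply]
    linear_combination h3
  -- stability
  have hst : X' (0, θ) ∈ (Q.map (LinearMap.inr ℚ_[ℓ] (n → ℚ_[ℓ]) (Fam ℚ_[ℓ] n d))) := by
    refine hX'.1 _ ⟨Δ, hΔ, ?_⟩ _ ⟨θ, hθ, rfl⟩
    rintro γ hγ _ ⟨η, hη, rfl⟩
    refine ⟨famRep d (tw χ ρ) γ η, hQ _ (Δ.inv_mem hγ) _ hη, ?_⟩
    rw [LinearMap.inr_apply, LinearMap.inr_apply, prod_apply, map_zero]
  obtain ⟨η, hη, he⟩ := hst
  have h4 : η = (X' (0, θ)).2 := by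
    rw [← he]
    rfl
  have h5 : (fun i => der X (θ i)) = -η := by
    funext i
    rw [h4, Pi.neg_apply, key, neg_neg]
  rw [h5]
  exact Q.neg_mem hη

end

end Pool.Agent.H851.ZD
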