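import Mathlib
import Pool.Agent.H851.ZD.Forms
import Pool.Agent.H851.TT.Kg

/-!
# Polynomials vanishing on open subgroups of the image of Galois
-/

set_option autoImplicit false
set_option linter.unusedSectionVars false
set_option linter.unusedVariables false

namespace Pool.Agent.H851.ZD

open Module Finset Function Matrix
open NumberField IsDedekindDomain Polynomial
open Pool.Agent.N429.KS (chg der chg_chg chg_one chg_add chg_smul chg_der)
open Pool.Agent.H851.K3 Pool.Agent.H851.KT Pool.Agent.H851.TT
open Pool.Agent.NH56.HY (GK tw tw_apply chi_ne)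

section lists

variable {k : Type} [Field k] {n : Type} [Fintype n] [DecidableEq n]

theorem exists_list (P : MvPolynomial (n × n) k) : ∃ L : List (k × List (n × n)),
    ∀ (C : Type) [Field C] [Algebra k C] (M : Matrix n n C),
      MvPolynomial.aeval (fun p : n × n => M p.1 p.2) P =
        (L.map fun t => algebraMap k C t.1 * (t.2.map fun p => M p.1 p.2).prod).sum := by
  induction P using MvPolynomial.induction_on with
  | C a => exact ⟨[(a, [])], fun C _ _ M => by simp⟩
  | add p q hp hq =>
    obtain ⟨L, hL⟩ := hp
    obtain ⟨L', hL'⟩ := hq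
    exact ⟨L ++ L', fun C _ _ M => by rw [map_add, hL, hL', List.map_append, List.sum_append]⟩
  | mul_X p x hp =>
    obtain ⟨L, hL⟩ := hp
    refine ⟨L.map fun t => (t.1, x :: t.2), fun C _ _ M => ?_⟩
    rw [map_mul, hL, MvPolynomial.aeval_X, List.map_map, ← List.sum_map_mul_right]
    congr 1
    refine List.map_congr_left fun t _ => ?_
    simp only [Function.comp_apply, List.map_cons, List.prod_cons]
    ring

/-- polynomials in the coefficients of a matrix are matrix coefficients of families of forms -/
theorem exists_rep (P : MvPolynomial (n × n) k) : ∃ (I : Type) (_ : Fintype I) (_ : DecidableEq I)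
    (d : I → ℕ) (b : ∀ i, Fin (d i) → n) (ψ : Fam k n d),
    ∀ (C : Type) [Field C] [Algebra k C] (M : Matrix n n C),
      MvPolynomial.aeval (fun p : n × n => M p.1 p.2) P = ∑ i, chg M (ck C (ψ i)) (b i) := by
  obtain ⟨L, hL⟩ := exists_list P
  refine ⟨Fin L.length, inferInstance, inferInstance, fun i => (L.get i).2.length,
    fun i l => ((L.get i).2.get l).2,
    fun i => (L.get i).1 • Pi.single (fun l => ((L.get i).2.get l).1) 1, fun C _ _ M => ?_⟩
  rw [hL, ← Fin.sum_univ_fun_getElem L
    (fun t => algebraMap k C t.1 * (t.2.map fun p => M p.1 p.2).prod)]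
  refine Finset.sum_congr rfl fun i _ => ?_
  change _ = ∑ J : Fin (L.get i).2.length → n, (∏ s, M (J s) ((L.get i).2.get s).2) •
    algebraMap k C ((L.get i).1 * (Pi.single (fun l => ((L.get i).2.get l).1) (1 : k) :
      (Fin (L.get i).2.length → n) → k) J)
  rw [Finset.sum_eq_single (fun l => ((L.get i).2.get l).1)]
  · rw [Pi.single_eq_same, mul_one, smul_eq_mul, mul_comm]
    congr 1
    exact (Fin.prod_univ_fun_getElem (L.get i).2 fun p => M p.1 p.2).symm
  · intro J _ hJ
    rw [Pi.single_eq_of_ne hJ, mul_zero, map_zero, smul_zero]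
  · intro h
    exact absurd (mem_univ _) h

end lists

section lin

variable {C : Type} [Field C] {n : Type} [Fintype n] [DecidableEq n] {S : Type} [Fintype S]
  [DecidableEq S]

theorem chg_sum' {I : Type} [Fintype I] (M : Matrix n n C) (c : I → C) (f : I → (S → n) → C) :
    chg M (∑ i, c i • f i) = ∑ i, c i • chg M (f i) := by
  funext J
  simp only [chg, smul_eq_mul, Finset.sum_apply, Pi.smul_apply, Finset.mul_sum]
  rw [Finset.sum_comm]
  exact Finset.sum_congr rfl fun i _ => Finset.sum_congr rfl fun J' _ => by ring

theorem der_sum' {I : Type} [Fintype I] (M : Matrix n n C) (c : I → C) (f : I → (S → n) → C) :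
    der M (∑ i, c i • f i) = ∑ i, c i • der M (f i) := by
  funext J
  simp only [der, smul_eq_mul, Finset.sum_apply, Pi.smul_apply, Finset.mul_sum]
  have h1 : ∀ s : S, ∑ b, ∑ i, M b (J s) * (c i * f i (update J s b)) =
      ∑ i, ∑ b, c i * (M b (J s) * f i (update J s b)) := by
    intro s
    rw [Finset.sum_comm]
    exact Finset.sum_congr rfl fun i _ => Finset.sum_congr rfl fun b _ => by ring
  simp only [h1]
  rw [Finset.sum_comm]

theorem der_add' (M : Matrix n n C) (f g : (S → n) → C) : der M (f + g) = der M f + der M g := by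
  funext J
  simp only [der, Pi.add_apply, mul_add, Finset.sum_add_distrib]

theorem der_smul' (M : Matrix n n C) (c : C) (f : (S → n) → C) : der M (c • f) = c • der M f := by
  funext J
  simp only [der, Pi.smul_apply, smul_eq_mul, Finset.mul_sum]
  refine Finset.sum_congr rfl fun s _ => Finset.sum_congr rfl fun b _ => ?_
  ring

theorem zpow_sum' {c : C} (hc : c ≠ 0) {T : Type} (s : Finset T) (f : T → ℤ) :
    c ^ (∑ t ∈ s, f t) = ∏ t ∈ s, c ^ f t := by
  classical
  induction s using Finset.induction_on with
  | empty => rw [Finset.sum_empty, Finset.prod_empty, zpow_zero]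
  | insert a s ha ih => rw [Finset.sum_insert ha, Finset.prod_insert ha, zpow_add₀ hc, ih]

theorem der_diag (m : n → C) (f : (S → n) → C) (J : S → n) :
    der (Matrix.diagonal m) f J = (∑ s, m (J s)) * f J := by
  rw [der, Finset.sum_mul]
  refine Finset.sum_congr rfl fun s _ => ?_
  rw [Finset.sum_eq_single (J s)]
  · rw [Matrix.diagonal_apply_eq, update_eq_self]
  · intro b _ hb
    rw [Matrix.diagonal_apply_ne _ hb, zero_mul]
  · intro h
    exact absurd (mem_univ _) h

theorem chg_diag (m : n → C) (f : (S → n) → C) (J : S → n) :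
    chg (Matrix.diagonal m) f J = (∏ s, m (J s)) * f J := by
  rw [chg, Finset.sum_eq_single J]
  · simp
  · intro J' _ hJ
    obtain ⟨s, hs⟩ := Function.ne_iff.1 hJ
    have h1 : ∏ s, Matrix.diagonal m (J' s) (J s) = 0 :=
      Finset.prod_eq_zero (mem_univ s) (Matrix.diagonal_apply_ne m hs)
    rw [h1, zero_smul]
  · intro h
    exact absurd (mem_univ J) h

end lin

section expo

variable {C : Type} [Field C] [CharZero C] {n : Type} [Fintype n] [DecidableEq n] {I : Type}
  [Fintype I] [DecidableEq I] {d : I → ℕ}

/-- the derivation on families -/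
def derF (D : Matrix n n C) : End C (Fam C n d) where
  toFun θ i := der D (θ i)
  map_add' a b := funext fun i => der_add' _ _ _
  map_smul' c a := funext fun i => der_smul' _ _ _

theorem derF_apply (D : Matrix n n C) (θ : Fam C n d) (i : I) : derF D θ i = der D (θ i) := rfl

/-- a subspace of families stable under a diagonalizable matrix with integral eigenvalues is stable
under the corresponding one parameter group -/
theorem exp_mem {D U U' : Matrix n n C} {m : n → ℤ} (hU : U * U' = 1)
    (hD : D * U = U * Matrix.diagonal fun j => (m j : C)) {c : C} (hc : c ≠ 0)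
    (Q : Submodule C (Fam C n d)) (hQ : ∀ θ ∈ Q, derF D θ ∈ Q) {θ : Fam C n d} (hθ : θ ∈ Q) :
    (fun i => chg (U * Matrix.diagonal (fun j => c ^ m j) * U') (θ i)) ∈ Q := by
  classical
  -- the interpolation polynomial
  let s : Finset ℤ := (univ : Finset (Σ i, Fin (d i) → n)).image fun p => ∑ t, m (p.2 t)
  let p : C[X] := Lagrange.interpolate s (fun N : ℤ => (N : C)) (fun N => c ^ N)
  have hp : ∀ (i : I) (J : Fin (d i) → n), p.eval (∑ t, (m (J t) : C)) = ∏ t, c ^ m (J t) := by
    intro i J
    have h1 : (∑ t, (m (J t) : C)) = ((∑ t, m (J t) : ℤ) : C) := by push_cast; rfl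
    have h2 : (∑ t, m (J t)) ∈ s := Finset.mem_image.2 ⟨⟨i, J⟩, mem_univ _, rfl⟩
    have h3 : ∏ t, c ^ m (J t) = c ^ (∑ t, m (J t)) := (zpow_sum' hc _ _).symm
    rw [h1, h3]
    exact Lagrange.eval_interpolate_at_node (fun N => c ^ N)
      (fun a _ b _ hab => Int.cast_injective hab) h2
  -- stability
  have hst : ∀ r : C[X], (aeval (derF D) r) θ ∈ Q := by
    intro r
    induction r using Polynomial.induction_on' with
    | add a b ha hb =>
      rw [map_add, LinearMap.add_apply]
      exact Q.add_mem ha hb
    | monomial N a =>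
      rw [Polynomial.aeval_monomial, Module.End.mul_apply, Module.algebraMap_end_apply]
      refine Q.smul_mem _ ?_
      induction N with
      | zero => simpa using hθ
      | succ N ih =>
        rw [pow_succ', Module.End.mul_apply]
        exact hQ _ ih
  have hU' : U' * U = 1 := mul_eq_one_comm.1 hU
  -- in the eigenbasis
  have key : ∀ (r : C[X]) (i : I) (J : Fin (d i) → n), chg U ((aeval (derF D) r) θ i) J =
      r.eval (∑ t, (m (J t) : C)) * chg U (θ i) J := by
    intro r i J
    induction r using Polynomial.induction_on' with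
    | add a b ha hb =>
      rw [map_add, LinearMap.add_apply, Pi.add_apply, chg_add, Pi.add_apply, ha, hb,
        Polynomial.eval_add]
      ring
    | monomial N a =>
      rw [Polynomial.aeval_monomial, Module.End.mul_apply, Module.algebraMap_end_apply,
        Pi.smul_apply, chg_smul, Pi.smul_apply, smul_eq_mul, Polynomial.eval_monomial, mul_assoc]
      congr 1
      induction N with
      | zero => simp
      | succ N ih =>
        rw [pow_succ', Module.End.mul_apply, derF_apply, chg_der U _ D hD.symm, der_diag, ih,
          pow_succ']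
        ring
  have hfin : (fun i => chg (U * Matrix.diagonal (fun j => c ^ m j) * U') (θ i)) =
      (aeval (derF D) p) θ := by
    funext i
    have h1 : chg U (chg (U * Matrix.diagonal (fun j => c ^ m j) * U') (θ i)) =
        chg U ((aeval (derF D) p) θ i) := by
      funext J
      rw [key, hp, chg_chg, Matrix.mul_assoc, hU', Matrix.mul_one, ← chg_chg, chg_diag]
    have h2 := congrArg (chg U') h1
    rwa [chg_chg U' U, chg_chg U' U, hU, chg_one, chg_one] at h2
  rw [hfin]
  exact hst p

end expo

end Pool.Agent.H851.ZD
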