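import Mathlib
import Pool.Agent.H851.ZD.Zar

/-!
# The Zariski closure of the image of Galois
-/

set_option autoImplicit false
set_option linter.unusedSectionVars false
set_option linter.unusedVariables false

namespace Pool.Agent.H851.ZD

open Module Finset Function Matrix
open NumberField IsDedekindDomain Polynomial
open Pool.Agent.N429.KS (chg der chg_chg chg_one chg_add chg_smul chg_der)
open Pool.Agent.H851.K3 Pool.Agent.H851.KT Pool.Agent.H851.TT
open Pool.Agent.NH56.HY (GK tw tw_apply chi_ne)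
open LinearMap (toMatrix' toMatrix'_toLin')

section gal

variable {K : Type} [Field K] [NumberField K] {ℓ : ℕ} [hℓ : Fact ℓ.Prime] {n : Type}
    [Fintype n] [DecidableEq n] {q : Matrix n n ℚ_[ℓ]} {S : Finset ℕ} {χ : GK K →* ℚ_[ℓ]}
    {Pol : HeightOneSpectrum (𝓞 K) → ℤ[X]} {ρ : GK K →* Matrix n n ℚ_[ℓ]}

/-- **Zariski closure.** A polynomial which vanishes on a subgroup of finite index of the image of Galois
vanishes on the tori given by the Lie algebra of the Tate tensors. -/
theorem vanish (h : IsK3Type q S χ Pol ρ) (hss : Semisimple ρ) {C : Type} [Field C] [IsAlgClosed C]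
    [CharZero C] [Algebra ℚ_[ℓ] C] (Δ : Subgroup (GK K)) (hΔ : Δ.FiniteIndex) (P : MvPolynomial (n × n) ℚ_[ℓ])
    (hP : ∀ g ∈ Δ, MvPolynomial.aeval (fun p : n × n => tw χ ρ g p.1 p.2) P = 0)
    {D U U' : Matrix n n C} {m : n → ℤ} (hU : U * U' = 1)
    (hD : D * U = U * Matrix.diagonal fun j => (m j : C))
    (hDL : ∃ (A : Type) (_ : Fintype A) (c : A → C) (X : A → Matrix n n ℚ_[ℓ]),
      (∀ a, X a ∈ tateLie χ ρ) ∧ D = ∑ a, c a • mp C (X a)) {c : C} (hc : c ≠ 0) :
    MvPolynomial.aeval
      (fun p : n × n => (U * Matrix.diagonal (fun j => c ^ m j) * U') p.1 p.2) P = 0 := by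
  obtain ⟨I, i1, i2, d, b, ψ, hψ⟩ := exists_rep P
  let Q : Submodule ℚ_[ℓ] (Fam ℚ_[ℓ] n d) :=
    { carrier := {θ | ∀ s ∈ Δ, ∑ i, chg (tw χ ρ s) (θ i) (b i) = 0}
      add_mem' := by
        intro θ θ' hθ hθ' s hs
        simp only [Pi.add_apply, chg_add, Finset.sum_add_distrib]
        rw [hθ s hs, hθ' s hs, add_zero]
      zero_mem' := by
        intro s hs
        refine Finset.sum_eq_zero fun i _ => ?_
        simp [chg]
      smul_mem' := by
        intro a θ hθ s hs
        simp only [Pi.smul_apply, chg_smul, ← Finset.smul_sum]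
        rw [hθ s hs, smul_zero] }
  have hQ : ∀ X ∈ tateLie χ ρ, ∀ θ ∈ Q, (fun i => der X (θ i)) ∈ Q := by
    intro X hX θ hθ
    refine der_mem h hss hX Q Δ hΔ ?_ hθ
    intro s hs η hη s' hs'
    simp only [chg_chg, ← map_mul]
    exact hη _ (Δ.mul_mem hs hs')
  let QC : Submodule C (Fam C n d) :=
    { carrier := {θ | ∀ s ∈ Δ, ∑ i, chg (mp C (tw χ ρ s)) (θ i) (b i) = 0}
      add_mem' := by
        intro θ θ' hθ hθ' s hs
        simp only [Pi.add_apply, chg_add, Finset.sum_add_distrib]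
        rw [hθ s hs, hθ' s hs, add_zero]
      zero_mem' := by
        intro s hs
        refine Finset.sum_eq_zero fun i _ => ?_
        simp [chg]
      smul_mem' := by
        intro a θ hθ s hs
        simp only [Pi.smul_apply, chg_smul, ← Finset.smul_sum]
        rw [hθ s hs, smul_zero] }
  have hQC : ∀ X ∈ tateLie χ ρ, ∀ θ ∈ QC, derF (mp C X) θ ∈ QC := by
    intro X hX θ hθ
    obtain ⟨A, a1, e, z, he, hz⟩ := expand (k := ℚ_[ℓ])
      (fun p : (Σ i, Fin (d i) → n) => θ p.1 p.2)
    have hz' : ∀ i, θ i = ∑ a, e a • ck C (fun J => z a ⟨i, J⟩) := by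
      intro i
      funext J
      have h1 := congrFun hz ⟨i, J⟩
      rw [Finset.sum_apply] at h1 ⊢
      exact h1
    have hza : ∀ a, (fun i J => z a ⟨i, J⟩ : Fam ℚ_[ℓ] n d) ∈ Q := by
      intro a s hs
      refine li_zero he (r := fun a => ∑ i, chg (tw χ ρ s) (fun J => z a ⟨i, J⟩) (b i)) ?_ a
      rw [← hθ s hs]
      simp only [map_sum, Finset.mul_sum]
      rw [Finset.sum_comm]
      refine Finset.sum_congr rfl fun i _ => ?_
      rw [hz' i, chg_sum', Finset.sum_apply]
      refine Finset.sum_congr rfl fun a _ => ?_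
      rw [ck_chg, Pi.smul_apply, smul_eq_mul]
      rfl
    intro s hs
    have h1 : ∀ i, chg (mp C (tw χ ρ s)) (derF (mp C X) θ i) (b i) =
        ∑ a, e a * algebraMap ℚ_[ℓ] C (chg (tw χ ρ s) (der X fun J => z a ⟨i, J⟩) (b i)) := by
      intro i
      rw [derF_apply, hz' i, der_sum', chg_sum', Finset.sum_apply]
      refine Finset.sum_congr rfl fun a _ => ?_
      rw [der_ck, ck_chg, Pi.smul_apply, smul_eq_mul]
      rfl
    simp only [h1]
    rw [Finset.sum_comm]
    refine Finset.sum_eq_zero fun a _ => ?_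
    rw [← Finset.mul_sum, ← map_sum]
    have h2 := hQ X hX _ (hza a) s hs
    rw [h2, map_zero, mul_zero]
  have hQD : ∀ θ ∈ QC, derF D θ ∈ QC := by
    obtain ⟨A, a1, e, X, hX, rfl⟩ := hDL
    intro θ hθ
    have h1 : derF (∑ a, e a • mp C (X a)) θ = ∑ a, e a • derF (mp C (X a)) θ := by
      funext i
      rw [derF_apply, der_lin, Finset.sum_apply]
      rfl
    rw [h1]
    exact QC.sum_mem fun a _ => QC.smul_mem _ (hQC _ (hX a) _ hθ)
  have hψQ : (fun i => ck C (ψ i) : Fam C n d) ∈ QC := by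
    intro s hs
    have h1 := hP s hs
    rw [hψ] at h1
    have h2 : ∀ i, ck ℚ_[ℓ] (ψ i) = ψ i := fun i => rfl
    simp only [h2] at h1
    simp only [ck_chg]
    have h3 := congrArg (algebraMap ℚ_[ℓ] C) h1
    rw [map_zero, map_sum] at h3
    exact h3
  have h1 := exp_mem hU hD hc QC hQD hψQ 1 Δ.one_mem
  rw [hψ, ← h1]
  refine Finset.sum_congr rfl fun i _ => ?_
  rw [map_one, mp_one, chg_one]

end gal

section sgn

variable {C : Type} [Field C] [IsAlgClosed C] [CharZero C] {n : Type} [Fintype n] [DecidableEq n]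

/-- a choice of signs -/
theorem exists_sgn : ∃ s : C → C, s 0 = 0 ∧ (∀ x, s (-x) = -s x) ∧ ∀ x, x ≠ 0 → s x * s x = 1 := by
  classical
  refine ⟨fun x => if x = 0 then 0 else if WellOrderingRel x (-x) then 1 else -1, if_pos rfl,
    fun x => ?_, fun x hx => ?_⟩
  · by_cases hx : x = 0
    · simp [hx]
    · have hne : x ≠ -x := fun h => hx (self_eq_neg.1 h)
      simp only [if_neg hx, if_neg (neg_ne_zero.2 hx), neg_neg]
      rcases trichotomous_of WellOrderingRel x (-x) with h1 | h1 | h1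
      · rw [if_pos h1, if_neg (asymm_of WellOrderingRel h1)]
      · exact absurd h1 hne
      · rw [if_pos h1, if_neg (asymm_of WellOrderingRel h1), neg_neg]
  · simp only [if_neg hx]
    split_ifs <;> simp

/-- orthogonality of generalized eigenspaces of a skew operator -/
theorem gen_orth {E : Type} [AddCommGroup E] [Module C E] {B : E →ₗ[C] E →ₗ[C] C} {M : End C E}
    (hM : Skew B M) {β γ : C} (hne : β + γ ≠ 0) : ∀ (N N' : ℕ) (x y : E),
    ((M - algebraMap C (End C E) β) ^ N) x = 0 → ((M - algebraMap C (End C E) γ) ^ N') y = 0 →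
    B x y = 0 := by
  intro N
  induction N with
  | zero =>
    intro N' x y hx _
    rw [pow_zero, Module.End.one_apply] at hx
    rw [hx, map_zero, LinearMap.zero_apply]
  | succ N ih =>
    intro N'
    induction N' with
    | zero =>
      intro x y _ hy
      rw [pow_zero, Module.End.one_apply] at hy
      rw [hy, map_zero]
    | succ N' ih' =>
      intro x y hx hy
      have hx' := hx
      have hy' := hy
      rw [pow_succ, Module.End.mul_apply] at hx' hy'
      have e1 := ih (N' + 1) _ y hx' hy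
      have e2 := ih' x _ hx hy'
      rw [LinearMap.sub_apply, Module.algebraMap_end_apply, map_sub, LinearMap.sub_apply,
        map_smul, LinearMap.smul_apply, smul_eq_mul] at e1
      rw [LinearMap.sub_apply, Module.algebraMap_end_apply, map_sub, map_smul, smul_eq_mul] at e2
      have e3 := hM x y
      refine (mul_eq_zero.1 (?_ : (β + γ) * B x y = 0)).resolve_left hne
      linear_combination -e1 - e2 + e3

/-- the sign of a skew operator -/
theorem exists_D {Q M : Matrix n n C} (hM : Mᵀ * Q + Q * M = 0) : ∃ D P : Matrix n n C,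
    Dᵀ * Q + Q * D = 0 ∧ (∀ Y, M * Y = Y * M → D * Y = Y * D) ∧ D * P = 0 ∧ D * D = 1 - P ∧
      ∀ x, P *ᵥ x ∈ Module.End.maxGenEigenspace (toLin' M : End C (n → C)) 0 := by
  obtain ⟨s, s0, sn, s1⟩ := exists_sgn (C := C)
  set Mf : End C (n → C) := toLin' M with hMf
  obtain ⟨f, hf⟩ := Pool.Agent.TH118.SG.exists_op Mf s
  have hfD : ∀ x, toMatrix' f *ᵥ x = f x := fun x => by rw [← toLin'_apply, toLin'_toMatrix']
  have hgen : ∀ {β : C} {x : n → C}, x ∈ Mf.maxGenEigenspace β ↔
      ∃ N : ℕ, ((M - algebraMap C _ β) ^ N) *ᵥ x = 0 := by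
    intro β x
    rw [Pool.Agent.TH118.SG.mem_gen]
    have e1 : ∀ N : ℕ, (Mf - algebraMap C (End C (n → C)) β) ^ N =
        toLin' ((M - algebraMap C (Matrix n n C) β) ^ N) := by
      intro N
      have e2 : (Mf - algebraMap C (End C (n → C)) β) =
          Matrix.toLinAlgEquiv' (M - algebraMap C (Matrix n n C) β) := by
        rw [map_sub, AlgEquiv.commutes]
        rfl
      rw [e2, ← map_pow]
      rfl
    simp only [e1, toLin'_apply]
  have hcomm : ∀ Y, M * Y = Y * M → toMatrix' f * Y = Y * toMatrix' f := by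
    intro Y hY
    have h3 : f ∘ₗ toLin' Y = toLin' Y ∘ₗ f := by
      refine Pool.Agent.TH118.SG.op_ext Mf fun β x hx => ?_
      rw [LinearMap.comp_apply, LinearMap.comp_apply, hf β x hx, map_smul, hf β]
      obtain ⟨N, hN⟩ := hgen.1 hx
      refine hgen.2 ⟨N, ?_⟩
      have h4 : Commute ((M - algebraMap C (Matrix n n C) β) ^ N) Y := by
        refine Commute.pow_left (Commute.sub_left hY (Algebra.commutes β Y)) N
      rw [toLin'_apply, Matrix.mulVec_mulVec, h4.eq, ← Matrix.mulVec_mulVec, hN, Matrix.mulVec_zero]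
    have h4 := congrArg toMatrix' h3
    rwa [LinearMap.toMatrix'_comp, LinearMap.toMatrix'_comp, toMatrix'_toLin'] at h4
  have hDDD : toMatrix' f * (1 - toMatrix' f * toMatrix' f) = 0 := by
    have h3 : f ∘ₗ (1 - f ∘ₗ f) = 0 := by
      refine Pool.Agent.TH118.SG.op_ext Mf fun β x hx => ?_
      rw [LinearMap.comp_apply, LinearMap.sub_apply, LinearMap.comp_apply, Module.End.one_apply,
        hf β x hx, map_smul, hf β x hx, LinearMap.zero_apply, map_sub, map_smul, map_smul,
        hf β x hx]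
      by_cases hβ : β = 0
      · subst hβ
        rw [s0]
        simp
      · rw [smul_smul (s β) (s β), s1 β hβ, one_smul, sub_self]
    have h4 := congrArg toMatrix' h3
    rwa [LinearMap.toMatrix'_comp, map_sub, LinearMap.toMatrix'_comp, LinearMap.toMatrix'_one,
      map_zero] at h4
  have htop : ∀ x : n → C, x ∈ ⨆ β, Mf.maxGenEigenspace β := by
    intro x
    rw [Module.End.iSup_maxGenEigenspace_eq_top Mf]
    exact Submodule.mem_top
  refine ⟨toMatrix' f, 1 - toMatrix' f * toMatrix' f, ?_, hcomm, hDDD,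
    (sub_sub_cancel _ _).symm, ?_⟩
  · rw [← skew_iff, toLin'_toMatrix']
    have hMs : Skew (form Q) Mf := skew_iff.2 hM
    intro x y
    induction htop x using Submodule.iSup_induction' with
    | mem β x hx =>
      induction htop y using Submodule.iSup_induction' with
      | mem γ y hy =>
        rw [hf β x hx, hf γ y hy, map_smul, map_smul, LinearMap.smul_apply]
        by_cases hbg : β + γ = 0
        · have h3 : γ = -β := by linear_combination hbg
          rw [h3, sn, smul_eq_mul, smul_eq_mul]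
          ring
        · obtain ⟨N, hN⟩ := Pool.Agent.TH118.SG.mem_gen.1 hx
          obtain ⟨N', hN'⟩ := Pool.Agent.TH118.SG.mem_gen.1 hy
          rw [gen_orth hMs hbg N N' x y hN hN', smul_zero, smul_zero, neg_zero]
      | zero => rw [map_zero, map_zero, map_zero, neg_zero]
      | add y y' _ _ hy hy' => rw [map_add, map_add, map_add, hy, hy', neg_add]
    | zero => rw [map_zero, map_zero, LinearMap.zero_apply, LinearMap.zero_apply, neg_zero]
    | add x x' _ _ hx hx' =>
      rw [map_add, map_add, map_add, LinearMap.add_apply, LinearMap.add_apply, hx, hx', neg_add]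
  · intro x
    rw [Matrix.sub_mulVec, Matrix.one_mulVec, ← Matrix.mulVec_mulVec, hfD, hfD]
    induction htop x using Submodule.iSup_induction' with
    | mem β x hx =>
      by_cases hβ : β = 0
      · subst hβ
        rw [hf 0 x hx, s0, zero_smul, map_zero, sub_zero]
        exact hx
      · rw [hf β x hx, map_smul, hf β x hx, smul_smul, s1 β hβ, one_smul, sub_self]
        exact Submodule.zero_mem _
    | zero => rw [map_zero, map_zero, sub_zero]; exact Submodule.zero_mem _
    | add x x' _ _ hx hx' =>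
      rw [map_add, map_add, add_sub_add_comm]
      exact Submodule.add_mem _ hx hx'

theorem exists_basis_mem {s : Set (n → C)} (hs : ⊤ ≤ Submodule.span C s) :
    ∃ b : Module.Basis n C (n → C), ∀ j, b j ∈ s := by
  obtain ⟨ι, b0, hb0⟩ : ∃ (ι : Type) (b : Module.Basis ι C (n → C)), ∀ i, b i ∈ s :=
    ⟨_, Module.Basis.ofSpan hs, fun i => Module.Basis.ofSpan_subset hs ⟨i, rfl⟩⟩
  have := Module.Finite.finite_basis b0
  have := Fintype.ofFinite ι
  have hc : Fintype.card ι = Fintype.card n := by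
    rw [← Module.finrank_eq_card_basis b0, Module.finrank_fintype_fun_eq_card]
  exact ⟨b0.reindex (Fintype.equivOfCardEq hc), fun j => by
    rw [Module.Basis.reindex_apply]; exact hb0 _⟩

/-- an eigenbasis -/
theorem exists_basis {D P : Matrix n n C} (hDP : D * P = 0) (hDD : D * D = 1 - P) :
    ∃ (U U' : Matrix n n C) (m : n → ℤ), U * U' = 1 ∧
      D * U = U * Matrix.diagonal (fun j => (m j : C)) ∧
      U * Matrix.diagonal (fun j => (-1 : C) ^ m j) * U' = P + P - 1 := by
  -- the eigenvectors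
  let s : Set (n → C) := {v | D *ᵥ v = v ∨ D *ᵥ v = -v ∨ D *ᵥ v = 0}
  have hDDD : D * (D * D) = D := by rw [hDD, Matrix.mul_sub, hDP, Matrix.mul_one, sub_zero]
  have hs : ⊤ ≤ Submodule.span C s := by
    intro x _
    have e3 : D *ᵥ (D *ᵥ (D *ᵥ x)) = D *ᵥ x := by
      rw [Matrix.mulVec_mulVec, Matrix.mulVec_mulVec, Matrix.mul_assoc, hDDD]
    have h1 : D *ᵥ (D *ᵥ x) + D *ᵥ x ∈ Submodule.span C s :=
      Submodule.subset_span (Or.inl (by rw [Matrix.mulVec_add, e3, add_comm]))
    have h2 : D *ᵥ (D *ᵥ x) - D *ᵥ x ∈ Submodule.span C s :=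
      Submodule.subset_span (Or.inr (Or.inl (by rw [Matrix.mulVec_sub, e3, neg_sub])))
    have h3 : x - D *ᵥ (D *ᵥ x) ∈ Submodule.span C s :=
      Submodule.subset_span (Or.inr (Or.inr (by rw [Matrix.mulVec_sub, e3, sub_self])))
    have h4 : x = (2⁻¹ : C) • (D *ᵥ (D *ᵥ x) + D *ᵥ x) + (2⁻¹ : C) • (D *ᵥ (D *ᵥ x) - D *ᵥ x) +
        (x - D *ᵥ (D *ᵥ x)) := by
      funext i
      simp only [Pi.add_apply, Pi.sub_apply, Pi.smul_apply, smul_eq_mul]
      ring
    rw [h4]
    exact Submodule.add_mem _ (Submodule.add_mem _ (Submodule.smul_mem _ _ h1)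
      (Submodule.smul_mem _ _ h2)) h3
  obtain ⟨b, hb⟩ := exists_basis_mem hs
  have hm : ∀ j, ∃ m : ℤ, D *ᵥ b j = (m : C) • b j ∧
      (-1 : C) ^ m = 1 - 2 * ((m : C) * (m : C)) := by
    intro j
    rcases hb j with h | h | h
    · exact ⟨1, by rw [h]; simp, by norm_num⟩
    · exact ⟨-1, by rw [h]; simp, by norm_num⟩
    · exact ⟨0, by rw [h]; simp, by norm_num⟩
  choose m hm1 hm2 using hm
  have hUb : ∀ (A : Matrix n n C) (i j : n),
      (A * (Pi.basisFun C n).toMatrix b) i j = (A *ᵥ b j) i := fun A i j => rfl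
  have hU := Module.Basis.toMatrix_mul_toMatrix_flip (Pi.basisFun C n) b
  have hU' : b.toMatrix (Pi.basisFun C n) * (Pi.basisFun C n).toMatrix b = 1 :=
    mul_eq_one_comm.1 hU
  refine ⟨(Pi.basisFun C n).toMatrix b, b.toMatrix (Pi.basisFun C n), m, hU, ?_, ?_⟩
  · ext i j
    rw [hUb, hm1, Matrix.mul_diagonal, Pi.smul_apply, smul_eq_mul, mul_comm]
    rfl
  · have h1 : (Pi.basisFun C n).toMatrix b * Matrix.diagonal (fun j => (-1 : C) ^ m j) =
        (P + P - 1) * (Pi.basisFun C n).toMatrix b := by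
      ext i j
      have h2 : P *ᵥ b j = b j - ((m j : C) * (m j : C)) • b j := by
        have h3 : P = 1 - D * D := by rw [hDD, sub_sub_cancel]
        rw [h3, Matrix.sub_mulVec, Matrix.one_mulVec, ← Matrix.mulVec_mulVec, hm1,
          Matrix.mulVec_smul, hm1, smul_smul]
      rw [hUb, Matrix.mul_diagonal, Matrix.sub_mulVec, Matrix.one_mulVec, Matrix.add_mulVec, h2,
        hm2]
      simp only [Pi.sub_apply, Pi.add_apply, Pi.smul_apply, smul_eq_mul]
      change b j i * (1 - 2 * ((m j : C) * (m j : C))) = _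
      ring
    rw [h1, Matrix.mul_assoc, hU, Matrix.mul_one]

end sgn

section good

variable {C : Type} [Field C] [IsAlgClosed C] [CharZero C] {k : Type} [Field k] [CharZero k]
  [Algebra k C] {n : Type} [Fintype n] [DecidableEq n]

/-- operators over `C` with the properties of the elements of `L` are in the span of `L` -/
theorem dat_span {q P : Matrix n n k} {L : Set (Matrix n n k)} (D : Dat C q P L)
    {Z : Matrix n n C} (h1 : Zᵀ * mp C q + mp C q * Z = 0)
    (h2 : ∀ Y ∈ Cm L, Z * mp C Y = mp C Y * Z) : ∃ (A : Type) (_ : Fintype A) (c : A → C)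
      (X : A → Matrix n n k), (∀ a, X a ∈ L) ∧ Z = ∑ a, c a • mp C (X a) := by
  obtain ⟨I, i1, c, z, hc, hz⟩ := expandM (k := k) Z
  refine ⟨I, i1, c, z, fun i => ?_, hz⟩
  refine D.big _ ?_ fun Y hY => ?_
  · refine li_mat hc (M := fun i => (z i)ᵀ * q + q * z i) ?_ i
    rw [← h1, hz, Matrix.transpose_sum, Finset.sum_mul, Finset.mul_sum, ← Finset.sum_add_distrib]
    refine Finset.sum_congr rfl fun i _ => ?_
    rw [mp_add, mp_mul, mp_mul, smul_add, Matrix.transpose_smul, Matrix.smul_mul,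
      Matrix.mul_smul]
    rfl
  · rw [← sub_eq_zero]
    refine li_mat hc (M := fun i => z i * Y - Y * z i) ?_ i
    have h3 := h2 Y hY
    rw [← sub_eq_zero, hz, Finset.sum_mul, Finset.mul_sum, ← Finset.sum_sub_distrib] at h3
    rw [← h3]
    refine Finset.sum_congr rfl fun i _ => ?_
    rw [mp_sub, mp_mul, mp_mul, smul_sub, Matrix.smul_mul, Matrix.mul_smul]

/-- a coefficient of the characteristic polynomial at `1` as a polynomial in the entries -/
noncomputable def cpol (k n : Type) [Field k] [Fintype n] [DecidableEq n] (m : ℕ) :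
    MvPolynomial (n × n) k :=
  (Polynomial.taylor 1 (Matrix.mvPolynomialX n n k).charpoly).coeff m

omit [IsAlgClosed C] [CharZero C] [CharZero k] in
theorem cpol_eval (m : ℕ) (M : Matrix n n C) :
    MvPolynomial.aeval (fun p : n × n => M p.1 p.2) (cpol k n m) =
      (Polynomial.taylor 1 M.charpoly).coeff m := by
  have h1 : M.charpoly = (Matrix.mvPolynomialX n n k).charpoly.map
      (MvPolynomial.aeval (R := k) (fun p : n × n => M p.1 p.2)).toRingHom := by
    rw [← Matrix.charpoly_map]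
    congr 1
    exact (Matrix.mvPolynomialX_mapMatrix_aeval k M).symm
  have h2 := Polynomial.map_taylor (Matrix.mvPolynomialX n n k).charpoly 1
    (MvPolynomial.aeval (R := k) (fun p : n × n => M p.1 p.2)).toRingHom
  rw [map_one] at h2
  rw [cpol, h1, ← h2, Polynomial.coeff_map]
  rfl

omit [CharZero k] in
theorem taylor_lin : Polynomial.taylor (1 : k) (X - Polynomial.C 1) = X := by
  rw [map_sub, Polynomial.taylor_X, Polynomial.taylor_C, add_sub_cancel_right]

omit [CharZero k] in
theorem mult_of_coeff {M : Matrix n n k} {m : ℕ}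
    (h : (Polynomial.taylor 1 M.charpoly).coeff m ≠ 0) : M.charpoly.rootMultiplicity 1 ≤ m := by
  by_contra hcon
  push Not at hcon
  obtain ⟨g, hg⟩ := (pow_dvd_pow (X - Polynomial.C (1 : k)) hcon).trans
    (Polynomial.pow_rootMultiplicity_dvd M.charpoly 1)
  apply h
  rw [hg, Polynomial.taylor_mul, Polynomial.taylor_pow, taylor_lin, Polynomial.coeff_X_pow_mul',
    if_neg (by omega)]

omit [CharZero k] in
theorem coeff_mult (M : Matrix n n k) :
    (Polynomial.taylor 1 M.charpoly).coeff (M.charpoly.rootMultiplicity 1) ≠ 0 := by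
  obtain ⟨g, hg, hdvd⟩ := Polynomial.exists_eq_pow_rootMultiplicity_mul_and_not_dvd M.charpoly
    (Matrix.charpoly_monic M).ne_zero 1
  rw [Polynomial.dvd_iff_isRoot] at hdvd
  have h1 : Polynomial.taylor 1 M.charpoly =
      X ^ (M.charpoly.rootMultiplicity 1) * Polynomial.taylor 1 g := by
    conv_lhs => rw [hg]
    rw [Polynomial.taylor_mul, Polynomial.taylor_pow, taylor_lin]
  rw [h1, Polynomial.coeff_X_pow_mul', if_pos le_rfl, Nat.sub_self, Polynomial.taylor_coeff_zero]
  exact hdvd

end good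

section fin

variable {K : Type} [Field K] [NumberField K] {ℓ : ℕ} [hℓ : Fact ℓ.Prime] {n : Type}
    [Fintype n] [DecidableEq n] {q : Matrix n n ℚ_[ℓ]} {S : Finset ℕ} {χ : GK K →* ℚ_[ℓ]}
    {Pol : HeightOneSpectrum (𝓞 K) → ℤ[X]} {ρ : GK K →* Matrix n n ℚ_[ℓ]}

/-- the multiplicity of the eigenvalue `1` of some element is bounded by the nullity -/
theorem exists_g (h : IsK3Type q S χ Pol ρ) (hss : Semisimple ρ) {X : Matrix n n ℚ_[ℓ]}
    (hX : X ∈ tateLie χ ρ) : ∃ m, m ≤ X.charpoly.rootMultiplicity 0 ∧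
      ∀ Δ : Subgroup (GK K), Δ.FiniteIndex → ∃ g ∈ Δ,
        (Polynomial.taylor 1 (tw χ ρ g).charpoly).coeff m ≠ 0 := by
  obtain ⟨P₀, D, -, -, -, -⟩ := exists_dat h hss (C := PadicAlgCl ℓ)
  obtain ⟨T, P, hT1, hT2, hT3, hT4, hT5⟩ := exists_D (Q := mp (PadicAlgCl ℓ) q)
    (M := mp (PadicAlgCl ℓ) X)
    (by rw [mp_transpose, ← mp_mul, ← mp_mul, ← mp_add, D.skew X hX, mp_zero])
  obtain ⟨U, U', m, hU, hTU, hUP⟩ := exists_basis hT3 hT4
  refine ⟨(P + P - 1).charpoly.rootMultiplicity 1, ?_, ?_⟩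
  · have hle : Module.End.maxGenEigenspace (toLin' (P + P - 1)) 1 ≤
        Module.End.maxGenEigenspace (toLin' (mp (PadicAlgCl ℓ) X)) 0 := by
      intro x hx
      have hPP : (1 - P) * P = 0 := by rw [← hT4, Matrix.mul_assoc, hT3, Matrix.mul_zero]
      obtain ⟨N, hN⟩ := (Module.End.mem_maxGenEigenspace _ _ _).1 hx
      have e1 : ((toLin' (P + P - 1) : End (PadicAlgCl ℓ) (n → PadicAlgCl ℓ)) -
          (1 : PadicAlgCl ℓ) • (1 : End (PadicAlgCl ℓ) (n → PadicAlgCl ℓ))) ^ N =
          toLin' ((P + P - 1 - 1) ^ N) := by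
        rw [one_smul, Matrix.toLin'_pow, map_sub (toLin' : Matrix n n (PadicAlgCl ℓ) ≃ₗ[_] _)
          (P + P - 1) 1, Matrix.toLin'_one]
        rfl
      rw [e1, toLin'_apply] at hN
      have h3 : ∀ N : ℕ, (1 - P) * (P + P - 1 - 1) ^ N = (-2 : PadicAlgCl ℓ) ^ N • (1 - P) := by
        intro N
        induction N with
        | zero => simp
        | succ N ih =>
          have h4 : (1 - P) * (P + P - 1 - 1) = (-2 : PadicAlgCl ℓ) • (1 - P) := by
            rw [Matrix.mul_sub, Matrix.mul_sub, Matrix.mul_add, hPP, Matrix.mul_one, neg_smul,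
              two_smul]
            abel
          rw [pow_succ, ← Matrix.mul_assoc, ih, Matrix.smul_mul, h4, smul_smul, pow_succ]
      have h4 : (-2 : PadicAlgCl ℓ) ^ N • ((1 - P) *ᵥ x) = 0 := by
        rw [← Matrix.smul_mulVec, ← h3, ← Matrix.mulVec_mulVec, hN, Matrix.mulVec_zero]
      have h5 := (smul_eq_zero.1 h4).resolve_left (pow_ne_zero _ (neg_ne_zero.2 two_ne_zero))
      rw [Matrix.sub_mulVec, Matrix.one_mulVec, sub_eq_zero] at h5
      rw [h5]
      exact hT5 x
    have e2 : X.charpoly.rootMultiplicity 0 =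
        (mp (PadicAlgCl ℓ) X).charpoly.rootMultiplicity 0 := by
      rw [Matrix.charpoly_map, ← map_zero (algebraMap ℚ_[ℓ] (PadicAlgCl ℓ)),
        ← eq_rootMultiplicity_map (algebraMap ℚ_[ℓ] (PadicAlgCl ℓ)).injective]
    have h6 := Submodule.finrank_mono hle
    rw [LinearMap.finrank_maxGenEigenspace_eq, LinearMap.finrank_maxGenEigenspace_eq, charpoly_lin,
      charpoly_lin, ← e2] at h6
    exact h6
  · intro Δ hΔ
    by_contra hcon
    push Not at hcon
    have h1 := vanish h hss Δ hΔ (cpol ℚ_[ℓ] n ((P + P - 1).charpoly.rootMultiplicity 1))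
      (fun g hg => by
        rw [cpol_eval]
        exact hcon g hg) hU hTU
      (dat_span D hT1 fun Y hY => hT2 _ (by rw [← mp_mul, ← mp_mul, hY X hX])) (c := -1)
      (neg_ne_zero.2 one_ne_zero)
    rw [cpol_eval, hUP] at h1
    exact coeff_mult _ h1

end fin

end Pool.Agent.H851.ZD
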