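import Mathlib
import Pool.Agent.H851.ZD.Den
import Pool.Agent.H851.K3.Fro
import Pool.Agent.H851.TT.Pub

/-!
# Places where the number of the Tate classes does not jump
-/

set_option autoImplicit false
set_option linter.unusedSectionVars false
set_option linter.unusedVariables false

namespace Pool.Agent.H851.ZD

open Module Finset Function Matrix
open NumberField IsDedekindDomain Polynomial
open Pool.Agent.H851.K3 Pool.Agent.H851.KT Pool.Agent.H851.TT
open Pool.Agent.NH56.HY (GK tw tw_apply chi_ne IsFrobenius R Near t_NR1 t_DG1 t_ARI R_near)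
open LinearMap (toMatrix' toMatrix'_toLin')

section

variable {K : Type} [Field K] [NumberField K] {ℓ : ℕ} [hℓ : Fact ℓ.Prime] {n : Type}
    [Fintype n] [DecidableEq n] {q : Matrix n n ℚ_[ℓ]} {S : Finset ℕ} {χ : GK K →* ℚ_[ℓ]}
    {Pol : HeightOneSpectrum (𝓞 K) → ℤ[X]} {ρ : GK K →* Matrix n n ℚ_[ℓ]}

open Classical in
/-- for Frobenius elements close to `1` only the eigenvalue `1` is a root of unity -/
theorem count_near (h : IsK3Type q S χ Pol ρ) {p : ℕ} [hp : Fact p.Prime] (hpS : p ∉ S)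
    {v : HeightOneSpectrum (𝓞 K)} (hv : Ideal.absNorm v.asIdeal = p) {σ : GK K}
    (hσ : IsFrobenius v σ) (hnear : σ⁻¹ ∈ Near χ ρ) :
    rootsOfUnity p (Pol v) = (tw χ ρ σ⁻¹).charpoly.rootMultiplicity 1 := by
  obtain ⟨s⟩ := Pool.Agent.NH66.HY.Nwt.exists_hom ℚ (PadicAlgCl ℓ)
  obtain ⟨τ⟩ := Pool.Agent.NH66.HY.Nwt.exists_hom ℚ ℂ
  have hp0 : (p : AlgebraicClosure ℚ) ≠ 0 := Nat.cast_ne_zero.2 hp.out.ne_zero
  have hmM : (R χ ρ σ⁻¹).charpoly ≠ 0 := (Matrix.charpoly_monic _).ne_zero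
  rw [eq_rootMultiplicity_map (algebraMap ℚ_[ℓ] (PadicAlgCl ℓ)).injective, map_one,
    ← Matrix.charpoly_map]
  have e1 : (tw χ ρ σ⁻¹).map (algebraMap ℚ_[ℓ] (PadicAlgCl ℓ)) = R χ ρ σ⁻¹ := rfl
  have hroots := roots_eq h hpS hv hσ s
  rw [e1, ← count_roots, hroots]
  unfold K3.rootsOfUnity
  rw [t_ARI.1 (Pol v) ℂ τ, Multiset.filter_map, Multiset.card_map, Multiset.count_map]
  congr 1
  refine Multiset.filter_congr fun a ha => ?_
  simp only [Function.comp]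
  constructor
  · rintro ⟨k, hk, h1⟩
    rw [← map_pow, ← map_natCast τ, ← map_pow] at h1
    have h2 := τ.injective h1
    have h3 : (a / p) ^ k = 1 := by rw [div_pow, h2, div_self (pow_ne_zero _ hp0)]
    have h4 : (R χ ρ σ⁻¹).charpoly.IsRoot (s (a / p)) := by
      rw [← mem_roots hmM, hroots]
      exact Multiset.mem_map_of_mem (fun a => s (a / p)) ha
    exact ((t_NR1 ℓ).1 _ (R_near χ ρ t_NR1 hnear _ h4) k hk (by rw [← map_pow, h3, map_one])).symm
  · intro h1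
    refine ⟨1, one_pos, ?_⟩
    have h2 : s (a / p) = s 1 := by rw [← h1, map_one]
    have h3 := s.injective h2
    rw [div_eq_one_iff_eq hp0] at h3
    rw [h3, map_natCast]

/-- **There are places with few roots of unity.** -/
theorem few_roots (h : IsK3Type q S χ Pol ρ) (hss : Semisimple ρ) {X : Matrix n n ℚ_[ℓ]}
    (hX : X ∈ tateLie χ ρ) (S' : Finset ℕ) : ∃ p : ℕ, p.Prime ∧ p ∉ S ∧ p ∉ S' ∧
      ∃ v : HeightOneSpectrum (𝓞 K), Ideal.absNorm v.asIdeal = p ∧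
        rootsOfUnity p (Pol v) ≤ X.charpoly.rootMultiplicity 0 := by
  obtain ⟨m, hm, hg⟩ := exists_g h hss hX
  obtain ⟨U₁, hU₁o, hU₁⟩ := near_open h.continuous.1 h.continuous.2
  obtain ⟨g, hg1, hg2⟩ := hg U₁ (finiteIndex_of_open hU₁o)
  have hVo : IsOpen ((U₁ : Set (GK K)) ∩
      {g | (Polynomial.taylor 1 (tw χ ρ g).charpoly).coeff m ≠ 0}) := by
    refine hU₁o.inter ?_
    have h2 : Continuous fun g => (Polynomial.taylor 1 (tw χ ρ g).charpoly).coeff m := by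
      have h3 : (fun g => (Polynomial.taylor 1 (tw χ ρ g).charpoly).coeff m) =
          fun g => MvPolynomial.eval (fun p : n × n => tw χ ρ g p.1 p.2) (cpol ℚ_[ℓ] n m) := by
        funext g
        rw [← cpol_eval (k := ℚ_[ℓ])]
        rfl
      rw [h3]
      refine (MvPolynomial.continuous_eval (cpol ℚ_[ℓ] n m)).comp ?_
      exact continuous_pi fun p => (continuous_apply_apply p.1 p.2).comp (tw_cont h)
    exact (isClosed_singleton (x := (0 : ℚ_[ℓ]))).isOpen_compl.preimage h2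
  obtain ⟨p, hp, hpS, v, hv, σ, hσ, hσV⟩ := t_DG1 K _ hVo ⟨g, hg1, hg2⟩ (S ∪ S')
  have : Fact p.Prime := ⟨hp⟩
  rw [Finset.mem_union, not_or] at hpS
  refine ⟨p, hp, hpS.1, hpS.2, v, hv, ?_⟩
  rw [count_near h hpS.1 hv hσ (hU₁ hσV.1)]
  exact (mult_of_coeff hσV.2).trans hm

/-- **Every place gives an element of the Lie algebra.** -/
theorem exists_X (h : IsK3Type q S χ Pol ρ) (hss : Semisimple ρ) {p : ℕ}
    [hp : Fact p.Prime] (hpS : p ∉ S) {v : HeightOneSpectrum (𝓞 K)}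
    (hv : Ideal.absNorm v.asIdeal = p) : ∃ X ∈ tateLie χ ρ,
      X.charpoly.rootMultiplicity 0 ≤ rootsOfUnity p (Pol v) := by
  obtain ⟨σ, hσ⟩ := exists_frobenius v
  obtain ⟨U₃, hU₃o, hU₃⟩ := exists_U h hss
  have hfin : Finite (GK K ⧸ U₃) := Subgroup.quotient_finite_of_isOpen _ hU₃o
  obtain ⟨k, hk, -, hkU⟩ := Subgroup.exists_pow_mem_of_index_ne_zero
    (H := U₃) Subgroup.index_ne_zero_of_finite σ⁻¹
  set g := σ⁻¹ ^ k with hg
  have hdet : (tw χ ρ g) * (tw χ ρ g⁻¹) = 1 := by rw [← map_mul, mul_inv_cancel, map_one]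
  have hdet' : (tw χ ρ g⁻¹) * (tw χ ρ g) = 1 := by rw [← map_mul, inv_mul_cancel, map_one]
  have hq := tw_form h g
  have hq' : (tw χ ρ g)ᵀ * q = q * tw χ ρ g⁻¹ := by
    have h1 := congrArg (fun M => M * tw χ ρ g⁻¹) hq
    simp only [Matrix.mul_assoc, hdet, Matrix.mul_one] at h1
    exact h1
  have hq'' : (tw χ ρ g⁻¹)ᵀ * q = q * tw χ ρ g := by
    have h1 := tw_form h g⁻¹
    have h2 := congrArg (fun M => M * tw χ ρ g) h1
    simp only [Matrix.mul_assoc, hdet', Matrix.mul_one] at h2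
    exact h2
  refine ⟨tw χ ρ g - tw χ ρ g⁻¹, ?_, ?_⟩
  · rw [tate_main h hss]
    refine ⟨?_, ?_⟩
    · rw [Matrix.transpose_sub, Matrix.sub_mul, hq', hq'', Matrix.mul_sub]
      abel
    · intro Y hY
      have h1 := hU₃ g hkU Y ((cm_iff h hss Y).2 hY)
      have h2 := hU₃ g⁻¹ (U₃.inv_mem hkU) Y ((cm_iff h hss Y).2 hY)
      rw [Matrix.sub_mul, Matrix.mul_sub, h1, h2]
  · refine le_trans ?_ (mult_le h hpS hv hσ (k := k + k) (by omega))
    have h2 : σ⁻¹ ^ (k + k) = g * g := by rw [hg, ← pow_add]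
    rw [← map_pow, h2]
    have e1 : ∀ (M : Matrix n n ℚ_[ℓ]) (a : ℚ_[ℓ]), M.charpoly.rootMultiplicity a =
        finrank ℚ_[ℓ] (Module.End.maxGenEigenspace (toLin' M) a) := by
      intro M a
      rw [LinearMap.finrank_maxGenEigenspace_eq, charpoly_lin]
    rw [e1, e1]
    refine Submodule.finrank_mono fun x hx => ?_
    obtain ⟨N, hN⟩ := (Module.End.mem_maxGenEigenspace _ _ _).1 hx
    refine (Module.End.mem_maxGenEigenspace _ _ _).2 ⟨N, ?_⟩
    rw [zero_smul, sub_zero, ← Matrix.toLin'_pow, toLin'_apply] at hN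
    have e2 : ((toLin' (tw χ ρ (g * g)) : End ℚ_[ℓ] (n → ℚ_[ℓ])) -
        (1 : ℚ_[ℓ]) • (1 : End ℚ_[ℓ] (n → ℚ_[ℓ]))) ^ N = toLin' ((tw χ ρ (g * g) - 1) ^ N) := by
      rw [one_smul, Matrix.toLin'_pow, map_sub (toLin' : Matrix n n ℚ_[ℓ] ≃ₗ[_] _)
        (tw χ ρ (g * g)) 1, Matrix.toLin'_one]
      rfl
    have e3 : tw χ ρ (g * g) - 1 = tw χ ρ g * (tw χ ρ g - tw χ ρ g⁻¹) := by
      rw [Matrix.mul_sub, hdet, map_mul]
    have e4 : Commute (tw χ ρ g) (tw χ ρ g - tw χ ρ g⁻¹) := by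
      refine Commute.sub_right (Commute.refl _) ?_
      rw [Commute, SemiconjBy, hdet, hdet']
    rw [e2, toLin'_apply, e3, e4.mul_pow, ← Matrix.mulVec_mulVec, hN, Matrix.mulVec_zero]

end

end Pool.Agent.H851.ZD
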