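import Mathlib
import Pool.Agent.H851.ZD.Pic

/-!
# The nullities of the elements of the Lie algebra of the Tate tensors
-/

set_option autoImplicit false
set_option linter.unusedSectionVars false
set_option linter.unusedVariables false

namespace Pool.Agent.H851.ZD

open Module Finset Function Matrix
open NumberField IsDedekindDomain Polynomial
open Pool.Agent.H851.K3 Pool.Agent.H851.KT Pool.Agent.H851.TT
open Pool.Agent.NH56.HY (GK tw tw_apply chi_ne IsFrobenius R Near t_NR1 t_DG1 t_ARI R_near)
open LinearMap (toMatrix' toMatrix'_toLin')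

section

variable {k : Type} [Field k] [CharZero k] {n : Type} [Fintype n] [DecidableEq n]

theorem nul_eq (X : Matrix n n k) : X.charpoly.rootMultiplicity 0 =
    finrank k (Module.End.maxGenEigenspace (toLin' X) 0) := by
  rw [LinearMap.finrank_maxGenEigenspace_eq, charpoly_lin]

theorem nul_parity {q X : Matrix n n k} (hq : q.det ≠ 0) (hX : Xᵀ * q + q * X = 0) :
    ∃ j, Fintype.card n = X.charpoly.rootMultiplicity 0 + 2 * j := by
  have hinf : Infinite k := inferInstance
  have h1 : X.charpoly = ((-1 : k) • X).charpoly := by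
    obtain ⟨u, hu⟩ := (Matrix.isUnit_iff_isUnit_det q).2 hq.isUnit
    have h2 : Xᵀ = u.val * ((-1 : k) • X) * u.val⁻¹ := by
      rw [hu]
      have h3 : Xᵀ * q = q * ((-1 : k) • X) := by
        rw [Matrix.mul_smul, neg_one_smul]
        exact eq_neg_of_add_eq_zero_left hX
      rw [← h3, Matrix.mul_assoc, Matrix.mul_nonsing_inv _ hq.isUnit, Matrix.mul_one]
    rw [← Matrix.charpoly_transpose X, h2, Matrix.charpoly_units_conj]
  rw [K3.charpoly_smul] at h1
  set f := X.charpoly with hf
  have hf0 : f ≠ 0 := (Matrix.charpoly_monic X).ne_zero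
  have hdeg : f.natDegree = Fintype.card n := Matrix.charpoly_natDegree_eq_dim X
  rw [Polynomial.rootMultiplicity_eq_natTrailingDegree']
  have hle : f.natTrailingDegree ≤ Fintype.card n := by
    rw [← hdeg]
    exact Polynomial.natTrailingDegree_le_natDegree f
  have hc : f.coeff f.natTrailingDegree ≠ 0 := Polynomial.trailingCoeff_nonzero_iff_nonzero.2 hf0
  have h4 := congrArg (fun g => g.coeff f.natTrailingDegree) h1
  simp only [Polynomial.coeff_scaleRoots, hdeg] at h4
  have h5 : (-1 : k) ^ (Fintype.card n - f.natTrailingDegree) = 1 := by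
    have h6 : f.coeff f.natTrailingDegree *
        ((-1 : k) ^ (Fintype.card n - f.natTrailingDegree) - 1) = 0 := by
      rw [mul_sub, mul_one, ← h4, sub_self]
    exact sub_eq_zero.1 ((mul_eq_zero.1 h6).resolve_left hc)
  rcases Nat.even_or_odd (Fintype.card n - f.natTrailingDegree) with ⟨j, hj⟩ | ho
  · exact ⟨j, by omega⟩
  · rw [ho.neg_one_pow] at h5
    exfalso
    have h6 : (2 : k) = 0 := by linear_combination -h5
    exact two_ne_zero h6

end

section

variable {K : Type} [Field K] [NumberField K] {ℓ : ℕ} [hℓ : Fact ℓ.Prime] {n : Type}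
    [Fintype n] [DecidableEq n] {q : Matrix n n ℚ_[ℓ]} {S : Finset ℕ} {χ : GK K →* ℚ_[ℓ]}
    {Pol : HeightOneSpectrum (𝓞 K) → ℤ[X]} {ρ : GK K →* Matrix n n ℚ_[ℓ]}

theorem tate_le_nul (h : IsK3Type q S χ Pol ρ) {X : Matrix n n ℚ_[ℓ]} (hX : X ∈ tateLie χ ρ) :
    finrank ℚ_[ℓ] (tate χ ρ) ≤ X.charpoly.rootMultiplicity 0 := by
  rw [nul_eq]
  refine Submodule.finrank_mono fun x hx => ?_
  refine (Module.End.mem_maxGenEigenspace _ _ _).2 ⟨1, ?_⟩
  rw [pow_one, zero_smul, sub_zero, toLin'_apply, kill_tate h hX hx]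

/-- complex multiplication -/
theorem nul_skew (h : IsK3Type q S χ Pol ρ) (hss : Semisimple ρ) (hc : HasSkewEnd q χ ρ) :
    ∃ X ∈ tateLie χ ρ, X.charpoly.rootMultiplicity 0 ≤ finrank ℚ_[ℓ] (tate χ ρ) := by
  obtain ⟨Θ, h1, h2, h3⟩ := hc
  obtain ⟨P, D, hP1, hP2, hP3, hP4⟩ := exists_dat h hss (C := PadicAlgCl ℓ)
  have hΘ := (cm_iff h hss Θ).2 h1
  have hΘP := D.central Θ hΘ
  refine ⟨Θ * (1 - P), ?_, ?_⟩
  · rw [tate_main h hss]
    refine ⟨?_, fun Y hY => ?_⟩
    · have e1 : (1 - P)ᵀ * q = q * (1 - P) := by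
        rw [Matrix.transpose_sub, Matrix.transpose_one, Matrix.sub_mul, D.adj, Matrix.one_mul,
          Matrix.mul_sub, Matrix.mul_one]
      have e2 : (1 - P) * Θ = Θ * (1 - P) := by
        rw [Matrix.sub_mul, Matrix.mul_sub, hΘP, Matrix.one_mul, Matrix.mul_one]
      rw [Matrix.transpose_mul, Matrix.mul_assoc, h2, Matrix.mul_neg, ← Matrix.mul_assoc, e1,
        Matrix.mul_assoc, e2, neg_add_cancel]
    · have hY' := (cm_iff h hss Y).2 hY
      have e1 := D.central Y hY'
      have e2 := D.comm Θ hΘ Y hY'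
      have e3 : (1 - P) * Y = Y * (1 - P) := by
        rw [Matrix.sub_mul, Matrix.mul_sub, e1, Matrix.one_mul, Matrix.mul_one]
      rw [Matrix.mul_assoc, e3, ← Matrix.mul_assoc, e2, Matrix.mul_assoc]
  · rw [nul_eq]
    refine Submodule.finrank_mono fun x hx => ?_
    obtain ⟨N, hN⟩ := (Module.End.mem_maxGenEigenspace _ _ _).1 hx
    rw [zero_smul, sub_zero, ← Matrix.toLin'_pow, toLin'_apply] at hN
    have e1 : ∀ (N : ℕ) (x : n → ℚ_[ℓ]), x ∈ orth q (tate χ ρ) →
        (Θ * (1 - P)) ^ N *ᵥ x = 0 → x = 0 := by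
      intro N
      induction N with
      | zero =>
        intro x _ hx
        rwa [pow_zero, Matrix.one_mulVec] at hx
      | succ N ih =>
        intro x hx hx0
        have e2 : (1 - P) *ᵥ x = x := by
          rw [Matrix.sub_mulVec, Matrix.one_mulVec, hP2 x hx, sub_zero]
        have e3 : Θ *ᵥ x ∈ orth q (tate χ ρ) := by
          have e4 := hP4 (Θ *ᵥ x)
          rwa [Matrix.mulVec_mulVec, ← hΘP, ← Matrix.mulVec_mulVec, hP2 x hx, Matrix.mulVec_zero,
            sub_zero] at e4
        rw [pow_succ, ← Matrix.mulVec_mulVec, ← Matrix.mulVec_mulVec, e2] at hx0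
        exact h3 x hx (ih _ e3 hx0)
    have e2 : x - P *ᵥ x = 0 := by
      refine e1 (N + 1) _ (hP4 x) ?_
      have e3 : x - P *ᵥ x = (1 - P) *ᵥ x := by rw [Matrix.sub_mulVec, Matrix.one_mulVec]
      have e4 : (Θ * (1 - P)) ^ (N + 1) * (1 - P) = (Θ * (1 - P)) ^ (N + 1) := by
        have e5 : (1 - P) * (1 - P) = 1 - P := by
          rw [Matrix.mul_sub, Matrix.mul_one, Matrix.sub_mul, Matrix.one_mul, D.proj, sub_self,
            sub_zero]
        rw [pow_succ, Matrix.mul_assoc, Matrix.mul_assoc, e5]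
      rw [e3, Matrix.mulVec_mulVec, e4, pow_succ', ← Matrix.mulVec_mulVec, hN, Matrix.mulVec_zero]
    rw [sub_eq_zero] at e2
    rw [e2]
    exact hP3 x

end

section

variable {k : Type} [Field k] [CharZero k] {n : Type} [Fintype n] [DecidableEq n]

/-- a skew operator of large rank -/
theorem exists_skew {q : Matrix n n k} (hq : qᵀ = q) (hd : q.det ≠ 0) {m : ℕ}
    (e : Fin m → n → k) (hort : ∀ i j, i ≠ j → form q (e i) (e j) = 0)
    (hne : ∀ i, form q (e i) (e i) ≠ 0) (hli : LinearIndependent k e) :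
    ∃ X : End k (n → k), Skew (form q) X ∧ (∀ x, X x ∈ Submodule.span k (Set.range e)) ∧
      (∀ x, (∀ i, form q (e i) x = 0) → X x = 0) ∧
      finrank k (Module.End.maxGenEigenspace X 0) + 2 * (m / 2) ≤ Fintype.card n := by
  classical
  have hs := form_symm hq
  obtain ⟨ι⟩ : Nonempty (Fin (m / 2) × Bool ↪ Fin m) := by
    refine Function.Embedding.nonempty_of_card_le ?_
    rw [Fintype.card_prod, Fintype.card_fin, Fintype.card_bool, Fintype.card_fin]
    omega
  let Xf : End k (n → k) := ∑ j, wdg (form q) (e (ι (j, false))) (e (ι (j, true)))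
  have hXa : ∀ x, Xf x = ∑ j, (form q (e (ι (j, false))) x • e (ι (j, true)) -
      form q (e (ι (j, true))) x • e (ι (j, false))) := by
    intro x
    rw [LinearMap.sum_apply]
    rfl
  have hskew : Skew (form q) Xf := by
    intro x y
    rw [hXa, hXa, map_sum, map_sum, LinearMap.sum_apply, ← Finset.sum_neg_distrib]
    refine Finset.sum_congr rfl fun j _ => ?_
    simp only [map_sub, map_smul, LinearMap.sub_apply, LinearMap.smul_apply, smul_eq_mul]
    rw [hs x (e (ι (j, true))), hs x (e (ι (j, false)))]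
    ring
  have hinj : ∀ p p' : Fin (m / 2) × Bool, p ≠ p' → ι p ≠ ι p' := fun p p' h h' => h (ι.injective h')
  have hXf : ∀ i, Xf (e (ι (i, false))) = form q (e (ι (i, false))) (e (ι (i, false))) •
      e (ι (i, true)) := by
    intro i
    rw [hXa, Finset.sum_eq_single i]
    · rw [hort (ι (i, true)) (ι (i, false)) (hinj _ _ (by simp)), zero_smul, sub_zero]
    · intro j _ hj
      rw [hort (ι (j, true)) (ι (i, false)) (hinj _ _ (by simp)),
        hort (ι (j, false)) (ι (i, false)) (hinj _ _ (by simp [hj])), zero_smul, zero_smul,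
        sub_zero]
    · intro h'
      exact absurd (mem_univ _) h'
  have hXt : ∀ i, Xf (e (ι (i, true))) = -(form q (e (ι (i, true))) (e (ι (i, true)))) •
      e (ι (i, false)) := by
    intro i
    rw [hXa, Finset.sum_eq_single i]
    · rw [hort (ι (i, false)) (ι (i, true)) (hinj _ _ (by simp)), zero_smul, zero_sub, neg_smul]
    · intro j _ hj
      rw [hort (ι (j, false)) (ι (i, true)) (hinj _ _ (by simp)),
        hort (ι (j, true)) (ι (i, true)) (hinj _ _ (by simp [hj])), zero_smul, zero_smul,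
        sub_zero]
    · intro h'
      exact absurd (mem_univ _) h'
  have hX2 : ∀ p : Fin (m / 2) × Bool, ∃ c : k, c ≠ 0 ∧ Xf (Xf (e (ι p))) = c • e (ι p) := by
    rintro ⟨i, b⟩
    refine ⟨-(form q (e (ι (i, true))) (e (ι (i, true))) *
      form q (e (ι (i, false))) (e (ι (i, false)))),
      neg_ne_zero.2 (mul_ne_zero (hne _) (hne _)), ?_⟩
    cases b with
    | true =>
      rw [hXt, map_smul, hXf, smul_smul]
      congr 1
      ring
    | false =>
      rw [hXf, map_smul, hXt, smul_smul]
      congr 1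
      ring
  refine ⟨Xf, hskew, fun x => ?_, fun x hx => ?_, ?_⟩
  · rw [hXa]
    exact Submodule.sum_mem _ fun j _ => Submodule.sub_mem _
      (Submodule.smul_mem _ _ (Submodule.subset_span ⟨_, rfl⟩))
      (Submodule.smul_mem _ _ (Submodule.subset_span ⟨_, rfl⟩))
  · rw [hXa]
    refine Finset.sum_eq_zero fun j _ => ?_
    rw [hx, hx, zero_smul, zero_smul, sub_zero]
  · let W : Submodule k (n → k) := Submodule.span k
      (Set.range fun p : Fin (m / 2) × Bool => e (ι p))
    have hW : finrank k W = 2 * (m / 2) := by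
      have h1 : LinearIndependent k fun p : Fin (m / 2) × Bool => e (ι p) :=
        hli.comp ι ι.injective
      rw [finrank_span_eq_card h1, Fintype.card_prod, Fintype.card_fin, Fintype.card_bool]
      omega
    have hle : Module.End.maxGenEigenspace Xf 0 ≤ (Matrix.toBilin' q).orthogonal W := by
      intro x hx
      obtain ⟨N, hN⟩ := (Module.End.mem_maxGenEigenspace _ _ _).1 hx
      rw [zero_smul, sub_zero] at hN
      have h1 : ∀ p : Fin (m / 2) × Bool, form q (e (ι p)) x = 0 := by
        intro p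
        obtain ⟨c, hc0, hc⟩ := hX2 p
        have h2 : ∀ (N : ℕ) (y : n → k), form q (e (ι p)) ((Xf ^ (2 * N)) y) =
            c ^ N * form q (e (ι p)) y := by
          intro N
          induction N with
          | zero => intro y; simp
          | succ N ih =>
            intro y
            have h3 : (Xf ^ (2 * (N + 1))) y = (Xf ^ (2 * N)) (Xf (Xf y)) := by
              rw [show 2 * (N + 1) = 2 * N + 2 by ring, pow_add, Module.End.mul_apply, pow_two,
                Module.End.mul_apply]
            rw [h3, ih]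
            have h4 : form q (e (ι p)) (Xf (Xf y)) = form q (Xf (Xf (e (ι p)))) y := by
              rw [hskew, hskew, neg_neg]
            rw [h4, hc, map_smul, LinearMap.smul_apply, smul_eq_mul]
            ring
        have h5 : (Xf ^ (2 * N)) x = 0 := by
          rw [show 2 * N = N + N by ring, pow_add, Module.End.mul_apply, hN, map_zero]
        have h6 := h2 N x
        rw [h5, map_zero] at h6
        exact (mul_eq_zero.1 h6.symm).resolve_left (pow_ne_zero _ hc0)
      rw [LinearMap.BilinForm.mem_orthogonal_iff]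
      intro y hy
      change Matrix.toBilin' q y x = 0
      rw [Matrix.toBilin'_apply', ← form_apply]
      induction hy using Submodule.span_induction with
      | mem y hy =>
        obtain ⟨p, rfl⟩ := hy
        exact h1 p
      | zero => rw [map_zero, LinearMap.zero_apply]
      | add y z _ _ hy hz => rw [map_add, LinearMap.add_apply, hy, hz, add_zero]
      | smul a y _ hy => rw [map_smul, LinearMap.smul_apply, hy, smul_zero]
    have h1 := Submodule.finrank_mono hle
    have hnd : (Matrix.toBilin' q).Nondegenerate :=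
      LinearMap.BilinForm.nondegenerate_toBilin'_of_det_ne_zero' q hd
    have h2 := LinearMap.BilinForm.finrank_orthogonal hnd W
    have h3 := Submodule.finrank_le W
    rw [h2, Module.finrank_fintype_fun_eq_card] at h1
    rw [Module.finrank_fintype_fun_eq_card] at h3
    omega

end

section

variable {K : Type} [Field K] [NumberField K] {ℓ : ℕ} [hℓ : Fact ℓ.Prime] {n : Type}
    [Fintype n] [DecidableEq n] {q : Matrix n n ℚ_[ℓ]} {S : Finset ℕ} {χ : GK K →* ℚ_[ℓ]}
    {Pol : HeightOneSpectrum (𝓞 K) → ℤ[X]} {ρ : GK K →* Matrix n n ℚ_[ℓ]}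

/-- an orthogonal basis of the transcendental part -/
theorem exists_orth (h : IsK3Type q S χ Pol ρ) (hss : Semisimple ρ) :
    ∃ e : Fin (finrank ℚ_[ℓ] (orth q (tate χ ρ))) → n → ℚ_[ℓ],
      (∀ i, e i ∈ orth q (tate χ ρ)) ∧ (∀ i j, i ≠ j → form q (e i) (e j) = 0) ∧
      (∀ i, form q (e i) (e i) ≠ 0) ∧ LinearIndependent ℚ_[ℓ] e := by
  obtain ⟨P, D, hP1, hP2, hP3, hP4⟩ := exists_dat h hss (C := PadicAlgCl ℓ)
  have hs := form_symm h.symm
  let T := orth q (tate χ ρ)
  let B : LinearMap.BilinForm ℚ_[ℓ] T := (form q).compl₁₂ T.subtype T.subtype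
  have hBs : LinearMap.IsSymm B := ⟨fun x y => hs _ _⟩
  have hTt : ∀ x ∈ T, ∀ y ∈ tate χ ρ, form q x y = 0 := by
    intro x hx y hy
    rw [hs, form_apply]
    exact hx y hy
  have : Invertible (2 : ℚ_[ℓ]) := invertibleOfNonzero two_ne_zero
  obtain ⟨e, he⟩ := LinearMap.BilinForm.exists_orthogonal_basis (B := B) hBs
  refine ⟨fun i => (e i : n → ℚ_[ℓ]), fun i => (e i).2, fun i j hij => he hij, fun i hi => ?_, ?_⟩
  · have h1 : (e i : n → ℚ_[ℓ]) = 0 := by
      refine form_nondeg h.symm h.nondeg _ fun y => ?_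
      have h2 : y = P *ᵥ y + (y - P *ᵥ y) := by abel
      rw [h2, map_add, hTt _ (e i).2 _ (hP3 y), zero_add]
      have h3 : ∀ z : T, form q (e i : n → ℚ_[ℓ]) z = 0 := by
        intro z
        have h4 : z = ∑ j, e.repr z j • e j := (e.sum_repr z).symm
        have h5 : B (e i) z = 0 := by
          rw [h4, map_sum]
          refine Finset.sum_eq_zero fun j _ => ?_
          rw [map_smul]
          by_cases hij : i = j
          · subst hij
            have h6 : B (e i) (e i) = 0 := hi
            rw [h6, smul_zero]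
          · have h6 : B (e i) (e j) = 0 := he hij
            rw [h6, smul_zero]
        exact h5
      exact h3 ⟨_, hP4 y⟩
    exact e.ne_zero i (Subtype.ext h1)
  · exact e.linearIndependent.map' T.subtype T.ker_subtype

/-- real type -/
theorem nul_scalar (h : IsK3Type q S χ Pol ρ) (hss : Semisimple ρ) (hc : ScalarEnds q χ ρ) :
    ∃ X ∈ tateLie χ ρ, X.charpoly.rootMultiplicity 0 ≤ finrank ℚ_[ℓ] (tate χ ρ) +
      finrank ℚ_[ℓ] (orth q (tate χ ρ)) % 2 := by
  obtain ⟨P, D, hP1, hP2, hP3, hP4⟩ := exists_dat h hss (C := PadicAlgCl ℓ)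
  have hs := form_symm h.symm
  obtain ⟨e, he1, he2, he3, he4⟩ := exists_orth h hss
  obtain ⟨Xf, hX1, hX2, hX3, hX4⟩ := exists_skew h.symm h.nondeg e he2 he3 he4
  have hXT : ∀ x, Xf x ∈ orth q (tate χ ρ) := by
    intro x
    refine (Submodule.span_le.2 ?_) (hX2 x)
    rintro _ ⟨i, rfl⟩
    exact he1 i
  have hXtate : ∀ x ∈ tate χ ρ, Xf x = 0 := by
    intro x hx
    refine hX3 x fun i => ?_
    rw [hs, form_apply]
    exact he1 i x hx
  refine ⟨toMatrix' Xf, ?_, ?_⟩
  · rw [tate_main h hss]
    refine ⟨?_, fun Y hY => ?_⟩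
    · rw [← skew_iff, toLin'_toMatrix']
      exact hX1
    · obtain ⟨a, ha⟩ := hc Y hY
      have hXv : ∀ x, toMatrix' Xf *ᵥ x = Xf x := fun x => by
        rw [← toLin'_apply, toLin'_toMatrix']
      refine ext_mulVec fun x => ?_
      rw [← Matrix.mulVec_mulVec, ← Matrix.mulVec_mulVec, hXv, hXv, ha _ (hXT x)]
      have h2 : Y *ᵥ x = Y *ᵥ (P *ᵥ x) + a • (x - P *ᵥ x) := by
        rw [← ha _ (hP4 x), Matrix.mulVec_sub]
        abel
      rw [h2, map_add, hXtate _ (end_tate hY (hP3 x)), zero_add, map_smul, map_sub,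
        hXtate _ (hP3 x), sub_zero]
  · rw [nul_eq, toLin'_toMatrix']
    have h3 := Submodule.finrank_add_eq_of_isCompl (tate_compl h hss)
    rw [Module.finrank_fintype_fun_eq_card] at h3
    omega

end

end Pool.Agent.H851.ZD
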