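import Mathlib
import Pool.Agent.H851.ZD.Nullity

/-!
# The jump rank and the Tate conjecture for divisors: definitions and final statements
-/

set_option autoImplicit false
set_option linter.unusedSectionVars false
set_option linter.unusedVariables false

namespace Pool.Agent.H851.ZD

open Module Finset Function Matrix
open NumberField IsDedekindDomain Polynomial
open Pool.Agent.H851.K3 Pool.Agent.H851.KT Pool.Agent.H851.TT
open Pool.Agent.NH56.HY (GK tw tw_apply chi_ne IsFrobenius)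

section defs

/-- The matrix `X` is skew with respect to the form `q`, and it commutes with all Tate endomorphisms. -/
def IsTateSkew {K : Type} [Field K] {ℓ : ℕ} [Fact ℓ.Prime] {n : Type} [Fintype n] [DecidableEq n]
    (q : Matrix n n ℚ_[ℓ]) (ρ : GK K →* Matrix n n ℚ_[ℓ]) (X : Matrix n n ℚ_[ℓ]) : Prop :=
  Xᵀ * q + q * X = 0 ∧ ∀ Y, IsTateEnd ρ Y → X * Y = Y * X

/-- **The jump rank**: the minimal multiplicity of the eigenvalue `0` of a matrix which is skew with respect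
to `q` and commutes with all Tate endomorphisms. -/
noncomputable def jumpRank {K : Type} [Field K] {ℓ : ℕ} [Fact ℓ.Prime] {n : Type} [Fintype n]
    [DecidableEq n] (q : Matrix n n ℚ_[ℓ]) (ρ : GK K →* Matrix n n ℚ_[ℓ]) : ℕ :=
  sInf {m | ∃ X, IsTateSkew q ρ X ∧ X.charpoly.rootMultiplicity 0 = m}

/-- `m` is the minimum of the numbers of the zeros `p ζ`, `ζ` a root of unity, of the Frobenius polynomials at the
places of degree one outside of `S`, and the minimum is attained at infinitely many places. -/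
def IsMinimalRank {K : Type} [Field K] [NumberField K] (S : Finset ℕ)
    (Pol : HeightOneSpectrum (𝓞 K) → ℤ[X]) (m : ℕ) : Prop :=
  (∀ (p : ℕ) (v : HeightOneSpectrum (𝓞 K)), p.Prime → p ∉ S → Ideal.absNorm v.asIdeal = p →
    m ≤ rootsOfUnity p (Pol v)) ∧
  ∀ S' : Finset ℕ, ∃ (p : ℕ) (v : HeightOneSpectrum (𝓞 K)), p.Prime ∧ p ∉ S ∧ p ∉ S' ∧
    Ideal.absNorm v.asIdeal = p ∧ rootsOfUnity p (Pol v) = m

/-- A compatible system of representations of K3 type with algebraic classes. For example `V_ℓ = H^2(X, ℚ_ℓ)`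
for a smooth projective surface (or variety) `X` over the number field `K` with `h^{2,0} = 1` and second Betti
number `b`, in coordinates, `n` has `b` elements, `q ℓ` is the cup product (with powers of an ample class),
`Pol v` the Frobenius polynomials, `r` the Picard number, `cl ℓ` the classes in `V_ℓ` of `r` divisors over the
algebraic closure of `K` which are a basis up to torsion, and `gram` their intersection matrix. -/
structure K3System (K : Type) [Field K] [NumberField K] (n : Type) [Fintype n] [DecidableEq n]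
    (r : ℕ) where
  Pol : HeightOneSpectrum (𝓞 K) → ℤ[X]
  S : ℕ → Finset ℕ
  q : ∀ (ℓ : ℕ) [Fact ℓ.Prime], Matrix n n ℚ_[ℓ]
  χ : ∀ (ℓ : ℕ) [Fact ℓ.Prime], GK K →* ℚ_[ℓ]
  ρ : ∀ (ℓ : ℕ) [Fact ℓ.Prime], GK K →* Matrix n n ℚ_[ℓ]
  cl : ∀ (ℓ : ℕ) [Fact ℓ.Prime], Fin r → n → ℚ_[ℓ]
  gram : Matrix (Fin r) (Fin r) ℚ
  isK3Type : ∀ (ℓ : ℕ) [Fact ℓ.Prime], IsK3Type (q ℓ) (S ℓ) (χ ℓ) Pol (ρ ℓ)
  cl_tate : ∀ (ℓ : ℕ) [Fact ℓ.Prime] (i : Fin r), cl ℓ i ∈ tate (χ ℓ) (ρ ℓ)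
  cl_gram : ∀ (ℓ : ℕ) [Fact ℓ.Prime] (i j : Fin r), cl ℓ i ⬝ᵥ q ℓ *ᵥ cl ℓ j = (gram i j : ℚ_[ℓ])
  gram_det : gram.det ≠ 0

/-- **The Tate conjecture for divisors** at the prime `ℓ`: the Tate classes in `V_ℓ` are spanned by the classes of
the divisors. -/
def K3System.Tate {K : Type} [Field K] [NumberField K] {n : Type} [Fintype n] [DecidableEq n]
    {r : ℕ} (X : K3System K n r) (ℓ : ℕ) [Fact ℓ.Prime] : Prop :=
  tate (X.χ ℓ) (X.ρ ℓ) = Submodule.span ℚ_[ℓ] (Set.range (X.cl ℓ))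

/-- the dimension of the space of the Tate classes at `ℓ` -/
noncomputable def K3System.rank {K : Type} [Field K] [NumberField K] {n : Type} [Fintype n]
    [DecidableEq n] {r : ℕ} (X : K3System K n r) (ℓ : ℕ) [Fact ℓ.Prime] : ℕ :=
  finrank ℚ_[ℓ] (tate (X.χ ℓ) (X.ρ ℓ))

end defs

section

variable {K : Type} [Field K] [NumberField K] {ℓ : ℕ} [hℓ : Fact ℓ.Prime] {n : Type}
    [Fintype n] [DecidableEq n] {q : Matrix n n ℚ_[ℓ]} {S : Finset ℕ} {χ : GK K →* ℚ_[ℓ]}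
    {Pol : HeightOneSpectrum (𝓞 K) → ℤ[X]} {ρ : GK K →* Matrix n n ℚ_[ℓ]}

omit [NumberField K] in
theorem jump_mem (q : Matrix n n ℚ_[ℓ]) (ρ : GK K →* Matrix n n ℚ_[ℓ]) :
    ∃ X, IsTateSkew q ρ X ∧ X.charpoly.rootMultiplicity 0 = jumpRank q ρ :=
  Nat.sInf_mem (s := {m | ∃ X, IsTateSkew q ρ X ∧ X.charpoly.rootMultiplicity 0 = m})
    ⟨_, 0, ⟨by simp, fun Y _ => by simp⟩, rfl⟩

omit [NumberField K] in
theorem jump_le {X : Matrix n n ℚ_[ℓ]} (hX : IsTateSkew q ρ X) :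
    jumpRank q ρ ≤ X.charpoly.rootMultiplicity 0 := Nat.sInf_le ⟨X, hX, rfl⟩

theorem isMin (h : IsK3Type q S χ Pol ρ) (hss : Semisimple ρ) :
    IsMinimalRank S Pol (jumpRank q ρ) := by
  have hle : ∀ (p : ℕ) (v : HeightOneSpectrum (𝓞 K)), p.Prime → p ∉ S →
      Ideal.absNorm v.asIdeal = p → jumpRank q ρ ≤ rootsOfUnity p (Pol v) := by
    intro p v hp hpS hv
    have : Fact p.Prime := ⟨hp⟩
    obtain ⟨X, hX, hXr⟩ := exists_X h hss hpS hv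
    exact (jump_le ((tate_main h hss X).1 hX)).trans hXr
  refine ⟨hle, fun S' => ?_⟩
  obtain ⟨X, hX, hXr⟩ := jump_mem q ρ
  obtain ⟨p, hp, hpS, hpS', v, hv, hr⟩ := few_roots h hss ((tate_main h hss X).2 hX) S'
  exact ⟨p, v, hp, hpS, hpS', hv, le_antisymm (hr.trans hXr.le) (hle p v hp hpS hv)⟩

theorem tate_le_jump (h : IsK3Type q S χ Pol ρ) (hss : Semisimple ρ) :
    finrank ℚ_[ℓ] (tate χ ρ) ≤ jumpRank q ρ := by
  obtain ⟨X, hX, hXr⟩ := jump_mem q ρ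
  rw [← hXr]
  exact tate_le_nul h ((tate_main h hss X).2 hX)

omit [NumberField K] in
theorem jump_parity (hq : q.det ≠ 0) : ∃ j, Fintype.card n = jumpRank q ρ + 2 * j := by
  obtain ⟨X, hX, hXr⟩ := jump_mem q ρ
  rw [← hXr]
  exact nul_parity hq hX.1

theorem jump_skew (h : IsK3Type q S χ Pol ρ) (hss : Semisimple ρ) (hc : HasSkewEnd q χ ρ) :
    jumpRank q ρ = finrank ℚ_[ℓ] (tate χ ρ) := by
  obtain ⟨X, hX, hXr⟩ := nul_skew h hss hc
  exact le_antisymm ((jump_le ((tate_main h hss X).1 hX)).trans hXr) (tate_le_jump h hss)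

theorem jump_scalar (h : IsK3Type q S χ Pol ρ) (hss : Semisimple ρ) (hc : ScalarEnds q χ ρ) :
    jumpRank q ρ = finrank ℚ_[ℓ] (tate χ ρ) + finrank ℚ_[ℓ] (orth q (tate χ ρ)) % 2 := by
  obtain ⟨X, hX, hXr⟩ := nul_scalar h hss hc
  have h1 := (jump_le ((tate_main h hss X).1 hX)).trans hXr
  have h2 := tate_le_jump h hss
  obtain ⟨j, hj⟩ := jump_parity (K := K) (ρ := ρ) h.nondeg
  have h3 := Submodule.finrank_add_eq_of_isCompl (tate_compl h hss)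
  rw [Module.finrank_fintype_fun_eq_card] at h3
  omega

theorem min_unique {S₁ S₂ : Finset ℕ} {m₁ m₂ : ℕ} (h₁ : IsMinimalRank S₁ Pol m₁)
    (h₂ : IsMinimalRank S₂ Pol m₂) : m₁ = m₂ := by
  obtain ⟨p, v, hp, hpS, hpS', hv, hr⟩ := h₁.2 S₂
  obtain ⟨p', v', hp', hpS₂, hpS₂', hv', hr'⟩ := h₂.2 S₁
  have e1 := h₂.1 p v hp hpS' hv
  have e2 := h₁.1 p' v' hp' hpS₂' hv'
  omega

end

section

variable {K : Type} [Field K] [NumberField K] {ℓ ℓ' : ℕ} [hℓ : Fact ℓ.Prime] [hℓ' : Fact ℓ'.Prime]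
    {n n' : Type} [Fintype n] [DecidableEq n] [Fintype n'] [DecidableEq n']
    {q : Matrix n n ℚ_[ℓ]} {S S' : Finset ℕ} {χ : GK K →* ℚ_[ℓ]}
    {Pol : HeightOneSpectrum (𝓞 K) → ℤ[X]} {ρ : GK K →* Matrix n n ℚ_[ℓ]}
    {q' : Matrix n' n' ℚ_[ℓ']} {χ' : GK K →* ℚ_[ℓ']} {ρ' : GK K →* Matrix n' n' ℚ_[ℓ']}

theorem two_primes (h : IsK3Type q S χ Pol ρ) (hss : Semisimple ρ)
    (h' : IsK3Type q' S' χ' Pol ρ') : finrank ℚ_[ℓ'] (tate χ' ρ') ≤ jumpRank q ρ := by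
  obtain ⟨p, v, hp, hpS, hpS', hv, hr⟩ := (isMin h hss).2 S'
  have : Fact p.Prime := ⟨hp⟩
  rw [← hr]
  exact (num h' hpS' hv).1

theorem two_primes' (h : IsK3Type q S χ Pol ρ) (hss : Semisimple ρ)
    (h' : IsK3Type q' S' χ' Pol ρ') (hss' : Semisimple ρ') : jumpRank q' ρ' = jumpRank q ρ :=
  min_unique (isMin h' hss') (isMin h hss)

end

section

variable {K : Type} [Field K] [NumberField K] {n : Type} [Fintype n] [DecidableEq n] {r : ℕ}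
  (X : K3System K n r)

/-- the form is nondegenerate on the span of the classes -/
theorem K3System.pairing (ℓ : ℕ) [hℓ : Fact ℓ.Prime] (a : Fin r → ℚ_[ℓ])
    (h : ∀ j, (∑ i, a i • X.cl ℓ i) ⬝ᵥ X.q ℓ *ᵥ X.cl ℓ j = 0) : a = 0 := by
  have h1 : a ᵥ* (X.gram.map (algebraMap ℚ ℚ_[ℓ])) = 0 := by
    funext j
    rw [Pi.zero_apply, ← h j, Matrix.vecMul, dotProduct, sum_dotProduct]
    refine Finset.sum_congr rfl fun i _ => ?_
    rw [smul_dotProduct, X.cl_gram, smul_eq_mul, Matrix.map_apply]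
    rfl
  have h2 : (X.gram.map (algebraMap ℚ ℚ_[ℓ])).det ≠ 0 := by
    have h3 : (X.gram.map (algebraMap ℚ ℚ_[ℓ])).det = algebraMap ℚ ℚ_[ℓ] X.gram.det :=
      (RingHom.map_det (algebraMap ℚ ℚ_[ℓ]) X.gram).symm
    rw [h3]
    exact (_root_.map_ne_zero _).2 X.gram_det
  have h3 := Matrix.vecMul_injective_of_isUnit ((Matrix.isUnit_iff_isUnit_det _).2 h2.isUnit)
  exact h3 (h1.trans (Matrix.zero_vecMul _).symm)

theorem K3System.cl_ind (ℓ : ℕ) [hℓ : Fact ℓ.Prime] : LinearIndependent ℚ_[ℓ] (X.cl ℓ) := by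
  rw [Fintype.linearIndependent_iff]
  intro a ha i
  exact congrFun (X.pairing ℓ a fun j => by rw [ha, zero_dotProduct]) i

theorem K3System.span_le (ℓ : ℕ) [hℓ : Fact ℓ.Prime] :
    Submodule.span ℚ_[ℓ] (Set.range (X.cl ℓ)) ≤ tate (X.χ ℓ) (X.ρ ℓ) := by
  rw [Submodule.span_le]
  rintro _ ⟨i, rfl⟩
  exact X.cl_tate ℓ i

theorem K3System.finrank_span (ℓ : ℕ) [hℓ : Fact ℓ.Prime] :
    finrank ℚ_[ℓ] (Submodule.span ℚ_[ℓ] (Set.range (X.cl ℓ))) = r := by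
  rw [finrank_span_eq_card (X.cl_ind ℓ), Fintype.card_fin]

theorem K3System.le_rank (ℓ : ℕ) [hℓ : Fact ℓ.Prime] : r ≤ X.rank ℓ := by
  exact (X.finrank_span ℓ).symm.le.trans (Submodule.finrank_mono (X.span_le ℓ))

theorem K3System.tate_iff (ℓ : ℕ) [hℓ : Fact ℓ.Prime] : X.Tate ℓ ↔ X.rank ℓ = r := by
  constructor
  · intro h
    unfold K3System.Tate at h
    rw [K3System.rank, h, X.finrank_span]
  · intro h
    exact (Submodule.eq_of_le_of_finrank_le (X.span_le ℓ) (by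
      rw [X.finrank_span]
      exact h.le)).symm

/-- **The Tate conjecture for divisors at one prime.** -/
theorem K3System.transfer (ℓ : ℕ) [hℓ : Fact ℓ.Prime] (hss : Semisimple (X.ρ ℓ)) :
    (∀ (ℓ' : ℕ) [Fact ℓ'.Prime], X.rank ℓ' ≤ jumpRank (X.q ℓ) (X.ρ ℓ)) ∧
      (jumpRank (X.q ℓ) (X.ρ ℓ) = r → ∀ (ℓ' : ℕ) [Fact ℓ'.Prime], X.Tate ℓ') := by
  have h1 : ∀ (ℓ' : ℕ) [Fact ℓ'.Prime], X.rank ℓ' ≤ jumpRank (X.q ℓ) (X.ρ ℓ) := fun ℓ' _ =>
    two_primes (X.isK3Type ℓ) hss (X.isK3Type ℓ')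
  exact ⟨h1, fun hr ℓ' _ => (X.tate_iff ℓ').2 (le_antisymm ((h1 ℓ').trans hr.le) (X.le_rank ℓ'))⟩

theorem K3System.jump_of_skew (ℓ : ℕ) [hℓ : Fact ℓ.Prime] (hT : X.Tate ℓ)
    (hss : Semisimple (X.ρ ℓ)) (hc : HasSkewEnd (X.q ℓ) (X.χ ℓ) (X.ρ ℓ)) :
    jumpRank (X.q ℓ) (X.ρ ℓ) = r :=
  (jump_skew (X.isK3Type ℓ) hss hc).trans ((X.tate_iff ℓ).1 hT)

theorem K3System.transfer_scalar (ℓ : ℕ) [hℓ : Fact ℓ.Prime] (hT : X.Tate ℓ)
    (hss : Semisimple (X.ρ ℓ)) (hc : ScalarEnds (X.q ℓ) (X.χ ℓ) (X.ρ ℓ)) (ℓ' : ℕ)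
    [hℓ' : Fact ℓ'.Prime] :
    X.rank ℓ' ≤ r + 1 ∧ (Even (Fintype.card n - r) → X.Tate ℓ') := by
  have h1 := jump_scalar (X.isK3Type ℓ) hss hc
  have h2 : finrank ℚ_[ℓ] (tate (X.χ ℓ) (X.ρ ℓ)) = r := (X.tate_iff ℓ).1 hT
  have h3 := Submodule.finrank_add_eq_of_isCompl (tate_compl (X.isK3Type ℓ) hss)
  rw [Module.finrank_fintype_fun_eq_card] at h3
  obtain ⟨h4, h5⟩ := X.transfer ℓ hss
  refine ⟨(h4 ℓ').trans ?_, fun he => h5 ?_ ℓ'⟩
  · omega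
  · obtain ⟨j, hj⟩ := he
    omega

end

section

variable {n : Type} [Fintype n] [DecidableEq n] {r : ℕ} (X : K3System ℚ n r)

/-- over `ℚ` the Tate conjecture for divisors implies semisimplicity -/
theorem K3System.semisimple (ℓ : ℕ) [hℓ : Fact ℓ.Prime] (h : X.Tate ℓ) : Semisimple (X.ρ ℓ) := by
  rw [semisimple_iff (X.isK3Type ℓ)]
  intro x hx hxy
  have h1 : x ∈ Submodule.span ℚ_[ℓ] (Set.range (X.cl ℓ)) := by
    rw [← (h : tate (X.χ ℓ) (X.ρ ℓ) = _)]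
    exact hx
  obtain ⟨a, rfl⟩ := (Submodule.mem_span_range_iff_exists_fun ℚ_[ℓ]).1 h1
  have h2 := X.pairing ℓ a fun j => hxy _ (X.cl_tate ℓ j)
  rw [h2]
  simp

end

end Pool.Agent.H851.ZD
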